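import Pool.Agent.H43.CM.B.B0

/-!
# CM, job A0: upper triangular matrices, permutation matrices, cells: basic facts

`IsUpper.mul`: entry `(i, i)` of the product is `b i i * c i i`, entries below the diagonal vanish.
`IsUpper.inv`: inverse of an invertible upper triangular matrix: `Matrix.blockTriangular_inv_of_blockTriangular` (Mathlib)
applied to `Matrix.BlockTriangular b id`; `det b = ∏ b i i ≠ 0` (`Matrix.det_of_upperTriangular`); diagonal entries:
from `b * b⁻¹ = 1` and the product formula for diagonal entries.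
`permMat_mul_apply`: `(permMat w * M) i j = M (w⁻¹ i) j`; `mul_permMat_apply`: `(M * permMat w) i j = M i (w j)`.
`permMat_mul`: `permMat (v * w) = permMat v * permMat w`.
`transv_upper`: `Matrix.transvection i j c` with `i < j` is upper.
`permMat_transv`: `permMat v * transvection i j c = transvection (v i) (v j) c * permMat v`.
`permMat_diag`: `permMat v * diagonal d = diagonal (d ∘ v⁻¹) * permMat v`.
-/

open Finset

noncomputable section

namespace CMT

variable {n : ℕ}

section ring
variable {R : Type*} [CommRing R]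

theorem permMat_mul_apply (w : Equiv.Perm (Fin n)) (M : Matrix (Fin n) (Fin n) R) (i j : Fin n) :
    (permMat R w * M) i j = M (w⁻¹ i) j := by
  rw [Matrix.mul_apply, Finset.sum_eq_single (w⁻¹ i)]
  · simp [permMat]
  · intro k _ hk
    have : i ≠ w k := by
      rintro rfl
      simp at hk
    simp [permMat, this]
  · simp

theorem mul_permMat_apply (w : Equiv.Perm (Fin n)) (M : Matrix (Fin n) (Fin n) R) (i j : Fin n) :
    (M * permMat R w) i j = M i (w j) := by
  rw [Matrix.mul_apply, Finset.sum_eq_single (w j)]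
  · simp [permMat]
  · intro k _ hk
    simp [permMat, hk]
  · simp

theorem permMat_one : permMat R (1 : Equiv.Perm (Fin n)) = 1 := by
  ext i j
  by_cases h : i = j <;> simp [permMat, Matrix.one_apply, h]

theorem permMat_mul (v w : Equiv.Perm (Fin n)) :
    permMat R (v * w) = permMat R v * permMat R w := by
  ext i j
  rw [mul_permMat_apply]
  by_cases h : i = v (w j) <;> simp [permMat, h]

theorem permMat_inv_mul (v : Equiv.Perm (Fin n)) : permMat R v⁻¹ * permMat R v = 1 := by
  rw [← permMat_mul, inv_mul_cancel, permMat_one]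

theorem permMat_mul_inv (v : Equiv.Perm (Fin n)) : permMat R v * permMat R v⁻¹ = 1 := by
  rw [← permMat_mul, mul_inv_cancel, permMat_one]

theorem permMat_transv (v : Equiv.Perm (Fin n)) (i j : Fin n) (c : R) :
    permMat R v * Matrix.transvection i j c = Matrix.transvection (v i) (v j) c * permMat R v := by
  ext a b
  rw [permMat_mul_apply, mul_permMat_apply]
  have h1 : (v⁻¹ a = b) ↔ (a = v b) := by
    rw [Equiv.Perm.inv_eq_iff_eq]
  have h2 : (i = v⁻¹ a ∧ j = b) ↔ (v i = a ∧ v j = v b) := by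
    rw [Equiv.Perm.eq_inv_iff_eq, v.injective.eq_iff]
  simp only [Matrix.transvection, Matrix.add_apply, Matrix.one_apply, Matrix.single_apply, h1, h2]

theorem permMat_diag (v : Equiv.Perm (Fin n)) (d : Fin n → R) :
    permMat R v * Matrix.diagonal d = Matrix.diagonal (fun i => d (v⁻¹ i)) * permMat R v := by
  ext a b
  rw [permMat_mul_apply, mul_permMat_apply]
  have h1 : (v⁻¹ a = b) ↔ (a = v b) := by
    rw [Equiv.Perm.inv_eq_iff_eq]
  simp only [Matrix.diagonal_apply, h1]

theorem lowMat_lt (z : Low n → R) {i j : Fin n} (h : j < i) : lowMat z i j = z ⟨(i, j), h⟩ := by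
  simp [lowMat, h]

theorem lowMat_gt (z : Low n → R) {i j : Fin n} (h : i < j) : lowMat z i j = 0 := by
  simp [lowMat, not_lt_of_gt h, h.ne]

theorem lowMat_diag (z : Low n → R) (i : Fin n) : lowMat z i i = 1 := by
  simp [lowMat]

theorem det_lowMat (z : Low n → R) : (lowMat z).det = 1 := by
  rw [Matrix.det_of_isLowerTriangular]
  · simp [lowMat_diag]
  · intro i j h
    exact lowMat_gt z h

/-- every lower unitriangular matrix is `lowMat` of its entries -/
theorem eq_lowMat {M : Matrix (Fin n) (Fin n) R} (h1 : ∀ i j, i < j → M i j = 0)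
    (h2 : ∀ i, M i i = 1) : M = lowMat (fun e : Low n => M e.1.1 e.1.2) := by
  ext i j
  rcases lt_trichotomy i j with h | rfl | h
  · rw [lowMat_gt _ h, h1 i j h]
  · rw [lowMat_diag, h2]
  · rw [lowMat_lt _ h]

theorem lowMat_injective : Function.Injective (lowMat : (Low n → R) → Matrix (Fin n) (Fin n) R) := by
  intro z z' h
  ext ⟨⟨i, j⟩, hij⟩
  have := congrFun (congrFun h i) j
  rwa [lowMat_lt _ hij, lowMat_lt _ hij] at this

theorem lowMat_zero : lowMat (fun _ : Low n => (0 : R)) = 1 := by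
  ext i j
  rcases lt_trichotomy i j with h | rfl | h
  · rw [lowMat_gt _ h, Matrix.one_apply_ne h.ne]
  · rw [lowMat_diag, Matrix.one_apply_eq]
  · rw [lowMat_lt _ h, Matrix.one_apply_ne h.ne']

/-- `lowMat` commutes with ring homomorphisms -/
theorem lowMat_map {S : Type*} [CommRing S] (f : R →+* S) (z : Low n → R) :
    (lowMat z).map f = lowMat (fun e => f (z e)) := by
  ext i j
  rcases lt_trichotomy i j with h | rfl | h
  · rw [Matrix.map_apply, lowMat_gt _ h, lowMat_gt _ h, map_zero]
  · rw [Matrix.map_apply, lowMat_diag, lowMat_diag, map_one]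
  · rw [Matrix.map_apply, lowMat_lt _ h, lowMat_lt _ h]

theorem permMat_map {S : Type*} [CommRing S] (f : R →+* S) (w : Equiv.Perm (Fin n)) :
    (permMat R w).map f = permMat S w := by
  ext i j
  by_cases h : i = w j <;> simp [permMat, h]

end ring

/-- diagonal entries of a product of upper triangular matrices -/
theorem A0_mul_diag {b c : Matrix (Fin n) (Fin n) ℂ} (hb : ∀ i j, j < i → b i j = 0)
    (hc : ∀ i j, j < i → c i j = 0) (i : Fin n) : (b * c) i i = b i i * c i i := by
  rw [Matrix.mul_apply, Finset.sum_eq_single i]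
  · intro k _ hk
    rcases lt_or_gt_of_ne hk with h | h
    · rw [hb i k h, zero_mul]
    · rw [hc k i h, mul_zero]
  · simp

theorem IsUpper.mul {b c : Matrix (Fin n) (Fin n) ℂ} (hb : IsUpper b) (hc : IsUpper c) :
    IsUpper (b * c) := by
  refine ⟨fun i j h => ?_, fun i => ?_⟩
  · rw [Matrix.mul_apply]
    apply Finset.sum_eq_zero
    intro k _
    rcases lt_or_ge k i with hk | hk
    · rw [hb.1 i k hk, zero_mul]
    · rw [hc.1 k j (lt_of_lt_of_le h hk), mul_zero]
  · rw [A0_mul_diag hb.1 hc.1]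
    exact mul_ne_zero (hb.2 i) (hc.2 i)

theorem IsUpper.det_ne {b : Matrix (Fin n) (Fin n) ℂ} (hb : IsUpper b) : b.det ≠ 0 := by
  rw [Matrix.det_of_isUpperTriangular (fun i j h => hb.1 i j h)]
  exact Finset.prod_ne_zero_iff.mpr (fun i _ => hb.2 i)

theorem IsUpper.inv {b : Matrix (Fin n) (Fin n) ℂ} (hb : IsUpper b) : IsUpper b⁻¹ := by
  have hu : IsUnit b.det := isUnit_iff_ne_zero.mpr hb.det_ne
  let _ := Matrix.invertibleOfIsUnitDet b hu
  have h0 : Matrix.BlockTriangular b id := fun i j h => hb.1 i j h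
  have h1 : Matrix.BlockTriangular b⁻¹ id := Matrix.blockTriangular_inv_of_blockTriangular h0
  refine ⟨fun i j h => h1 h, fun i h => ?_⟩
  have h2 := A0_mul_diag hb.1 (fun i j h => h1 h) i
  rw [Matrix.mul_nonsing_inv _ hu, h, mul_zero, Matrix.one_apply_eq] at h2
  exact one_ne_zero h2

theorem isUpper_one : IsUpper (1 : Matrix (Fin n) (Fin n) ℂ) :=
  ⟨fun _ _ h => Matrix.one_apply_ne h.ne', fun i => by simp⟩

theorem isUpper_transv {i j : Fin n} (h : i < j) (c : ℂ) : IsUpper (Matrix.transvection i j c) := by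
  refine ⟨fun a b hab => ?_, fun a => ?_⟩
  · have h1 : ¬ (i = a ∧ j = b) := by
      rintro ⟨rfl, rfl⟩
      exact lt_asymm h hab
    simp [Matrix.transvection, h1, Matrix.one_apply_ne hab.ne']
  · have h1 : ¬ (i = a ∧ j = a) := by
      rintro ⟨rfl, rfl⟩
      exact lt_irrefl _ h
    simp [Matrix.transvection, h1]

theorem isUpper_diag {d : Fin n → ℂ} (h : ∀ i, d i ≠ 0) : IsUpper (Matrix.diagonal d) :=
  ⟨fun _ _ h => Matrix.diagonal_apply_ne _ h.ne', fun i => by simpa using h i⟩

theorem permMat_mem_cell (w : Equiv.Perm (Fin n)) : permMat ℂ w ∈ Cell w :=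
  ⟨1, 1, isUpper_one, isUpper_one, by simp⟩

theorem cell_mul_left {w : Equiv.Perm (Fin n)} {b M : Matrix (Fin n) (Fin n) ℂ} (hb : IsUpper b)
    (hM : M ∈ Cell w) : b * M ∈ Cell w := by
  obtain ⟨c, c', hc, hc', rfl⟩ := hM
  exact ⟨b * c, c', hb.mul hc, hc', by simp only [Matrix.mul_assoc]⟩

theorem cell_mul_right {w : Equiv.Perm (Fin n)} {b M : Matrix (Fin n) (Fin n) ℂ} (hb : IsUpper b)
    (hM : M ∈ Cell w) : M * b ∈ Cell w := by
  obtain ⟨c, c', hc, hc', rfl⟩ := hM
  exact ⟨c, c' * b, hc, hc'.mul hb, by simp only [Matrix.mul_assoc]⟩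

theorem cell_mul_left_iff {w : Equiv.Perm (Fin n)} {b M : Matrix (Fin n) (Fin n) ℂ}
    (hb : IsUpper b) : b * M ∈ Cell w ↔ M ∈ Cell w := by
  refine ⟨fun h => ?_, cell_mul_left hb⟩
  have h1 := cell_mul_left hb.inv h
  rwa [← Matrix.mul_assoc, Matrix.nonsing_inv_mul _ (isUnit_iff_ne_zero.mpr hb.det_ne),
    Matrix.one_mul] at h1

theorem cell_mul_right_iff {w : Equiv.Perm (Fin n)} {b M : Matrix (Fin n) (Fin n) ℂ}
    (hb : IsUpper b) : M * b ∈ Cell w ↔ M ∈ Cell w := by
  refine ⟨fun h => ?_, cell_mul_right hb⟩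
  have h1 := cell_mul_right hb.inv h
  rwa [Matrix.mul_assoc, Matrix.mul_nonsing_inv _ (isUnit_iff_ne_zero.mpr hb.det_ne),
    Matrix.mul_one] at h1

end CMT
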