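import Pool.Agent.H43.CM.A.A0

/-!
# CM, job A1: nonvanishing minors on a cell (A1)

Proof. `M = b * permMat v * b'`. For `i, j < k`: `M (w i) j = ∑_l (b * permMat v) (w i) l * b' l j` and `b' l j = 0` unless
`l ≤ j < k`, so the `k × k` matrix `(M (w i) j)` is the product of `(b (w i) (v l))_{i, l < k}` (`mul_permMat_apply`) and
`(b' l j)_{l, j < k}`. The second one is upper triangular with nonzero diagonal: `Matrix.det_of_upperTriangular`, product
nonzero. By `image_eq_of_rk_eq` there is a permutation `σ` of `Fin k` with `w (castLE i) = v (castLE (σ i))` for all `i`. So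
`det (b (w i) (v l)) = ± det (b (v i) (v l))` (`Matrix.det_permute`). The matrix `(b (v i) (v l))_{i, l < k}` is upper
triangular for the linear order of `Fin k` pulled back along `i ↦ v (castLE i)` (use
`letI := LinearOrder.lift' (fun i : Fin k => v (Fin.castLE hk i)) inj` and `Matrix.det_of_upperTriangular`, or
`Matrix.BlockTriangular` with the function `i ↦ v (castLE i)` and `Matrix.BlockTriangular.det`), so its determinant is
`∏ b (v i) (v i) ≠ 0`.
`mnr_mul_upper` (used later): multiplication by an upper triangular matrix on the right multiplies `mnr w k` by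
`∏_{j<k} c j j` (first part of the same computation).
-/

open Finset

noncomputable section

namespace CMT

variable {n : ℕ}

private theorem a1_sum {R : Type*} [AddCommMonoid R] {k : ℕ} (hk : k ≤ n) (f : Fin n → R)
    (h : ∀ l : Fin n, k ≤ l.val → f l = 0) : ∑ l, f l = ∑ l : Fin k, f (Fin.castLE hk l) := by
  symm
  refine Fintype.sum_of_injective (Fin.castLE hk) (Fin.castLE_injective hk) _ _ (fun l hl => ?_)
    (fun _ => rfl)
  apply h
  by_contra hlt
  exact hl ⟨⟨l.val, by omega⟩, by ext; rfl⟩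

theorem mnr_mul_upper {c : Matrix (Fin n) (Fin n) ℂ} (hc : IsUpper c) (w : Equiv.Perm (Fin n))
    {k : ℕ} (hk : k ≤ n) (M : Matrix (Fin n) (Fin n) ℂ) :
    mnr w k hk (M * c) = mnr w k hk M * ∏ j : Fin k, c (Fin.castLE hk j) (Fin.castLE hk j) := by
  have e : (Matrix.of fun i j : Fin k => (M * c) (w (Fin.castLE hk i)) (Fin.castLE hk j)) =
      (Matrix.of fun i j : Fin k => M (w (Fin.castLE hk i)) (Fin.castLE hk j)) *
        (Matrix.of fun i j : Fin k => c (Fin.castLE hk i) (Fin.castLE hk j)) := by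
    ext i j
    rw [Matrix.of_apply, Matrix.mul_apply, Matrix.mul_apply, a1_sum hk]
    · rfl
    · intro l hl
      rw [hc.1 l (Fin.castLE hk j) (by
        rw [Fin.lt_def]
        exact lt_of_lt_of_le j.2 hl), mul_zero]
  unfold mnr
  rw [e, Matrix.det_mul]
  congr 1
  rw [Matrix.det_of_upperTriangular]
  · rfl
  · intro i j hij
    exact hc.1 _ _ hij

theorem mnr_mul_upper_ne {c : Matrix (Fin n) (Fin n) ℂ} (hc : IsUpper c) (w : Equiv.Perm (Fin n))
    {k : ℕ} (hk : k ≤ n) (M : Matrix (Fin n) (Fin n) ℂ) :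
    mnr w k hk (M * c) ≠ 0 ↔ mnr w k hk M ≠ 0 := by
  rw [mnr_mul_upper hc]
  have : ∏ j : Fin k, c (Fin.castLE hk j) (Fin.castLE hk j) ≠ 0 :=
    Finset.prod_ne_zero_iff.mpr fun j _ => hc.2 _
  simp [this]

/-- the matrix `(b (v i) (v l))_{i, l < k}` is invertible -/
theorem det_conj_ne {b : Matrix (Fin n) (Fin n) ℂ} (hb : IsUpper b) (v : Equiv.Perm (Fin n))
    {k : ℕ} (hk : k ≤ n) :
    Matrix.det (Matrix.of fun i j : Fin k => b (v (Fin.castLE hk i)) (v (Fin.castLE hk j))) ≠ 0 := by
  have hinj : Function.Injective (fun i : Fin k => v (Fin.castLE hk i)) :=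
    v.injective.comp (Fin.castLE_injective hk)
  have hbt : (Matrix.of fun i j : Fin k => b (v (Fin.castLE hk i)) (v (Fin.castLE hk j))).BlockTriangular
      (fun i : Fin k => v (Fin.castLE hk i)) := fun i j hij => hb.1 _ _ hij
  rw [hbt.det, Finset.prod_ne_zero_iff]
  intro a ha
  rw [Finset.mem_image] at ha
  obtain ⟨i, -, rfl⟩ := ha
  have hs : Subsingleton {j : Fin k // v (Fin.castLE hk j) = v (Fin.castLE hk i)} :=
    ⟨fun x y => Subtype.ext (hinj (x.2.trans y.2.symm))⟩
  rw [Matrix.det_eq_elem_of_subsingleton _ ⟨i, rfl⟩]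
  exact hb.2 _

/-- (A1) -/
theorem mnr_ne_zero {v w : Equiv.Perm (Fin n)} {M : Matrix (Fin n) (Fin n) ℂ} (hM : M ∈ Cell v)
    (k : ℕ) (hk : k ≤ n) (h : ∀ i, rk w i k = rk v i k) : mnr w k hk M ≠ 0 := by
  obtain ⟨b, b', hb, hb', rfl⟩ := hM
  rw [mnr_mul_upper_ne hb']
  have hex : ∀ i : Fin k, ∃ j : Fin k, v (Fin.castLE hk j) = w (Fin.castLE hk i) := by
    intro i
    have h1 : w (Fin.castLE hk i) ∈ (univ.filter fun j : Fin n => j.val < k).image w :=
      Finset.mem_image.2 ⟨_, Finset.mem_filter.2 ⟨Finset.mem_univ _, i.2⟩, rfl⟩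
    rw [image_eq_of_rk_eq h, Finset.mem_image] at h1
    obtain ⟨j, hj, hj2⟩ := h1
    rw [Finset.mem_filter] at hj
    exact ⟨⟨j.val, hj.2⟩, hj2⟩
  choose σ hσ using hex
  have hσi : Function.Injective σ := by
    intro i j hij
    have h1 : w (Fin.castLE hk i) = w (Fin.castLE hk j) := by rw [← hσ i, ← hσ j, hij]
    exact Fin.castLE_injective hk (w.injective h1)
  let σ' : Equiv.Perm (Fin k) := Equiv.ofBijective σ (Finite.injective_iff_bijective.1 hσi)
  have e : (Matrix.of fun i j : Fin k => (b * permMat ℂ v) (w (Fin.castLE hk i)) (Fin.castLE hk j)) =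
      (Matrix.of fun i j : Fin k => b (v (Fin.castLE hk i)) (v (Fin.castLE hk j))).submatrix σ' id := by
    ext i j
    rw [Matrix.of_apply, mul_permMat_apply, Matrix.submatrix_apply, Matrix.of_apply]
    have h1 : v (Fin.castLE hk (σ' i)) = w (Fin.castLE hk i) := hσ i
    rw [h1]
    rfl
  unfold mnr
  rw [e, Matrix.det_permute]
  refine mul_ne_zero ?_ (det_conj_ne hb v hk)
  rcases Int.units_eq_one_or (Equiv.Perm.sign σ') with h1 | h1 <;> rw [h1] <;> simp

end CMT
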