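import Pool.Agent.H43.CM.A.A0

/-!
# CM, job A10: torus action, homogeneity, the origin (A10)

`torus_SS`: let `D = diagonal (l ^ c p)` (invertible, so upper). `lowMat (scaled z) = D * lowMat z * D⁻¹`: entry `(p, j)`,
`j < p`: `l ^ c p * z * (l ^ c j)⁻¹ = l ^ (c p - c j) * z` as `c j ≤ c p`. (Write it as
`lowMat (scaled z) * D = D * lowMat z`.) Then `permMat x * lowMat (scaled z) * D = permMat x * D * lowMat z =
D' * (permMat x * lowMat z)` by `permMat_diag`; use `cell_mul_right_iff`, `cell_mul_left`, `isUpper_diag`.
`VI_SS_homogeneous`: let `w e = c e.1.1 - c e.1.2`, `z ∈ SS x v`, `f ∈ VI`. For all `l ≠ 0`: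
`0 = aeval (l ^ w e * z e) f = ∑_d l ^ d * aeval z (weightedHomogeneousComponent w d f)` (check on monomials, or: the ring
homomorphism `MvPolynomial → Polynomial ℂ`, `X e ↦ C (z e) * X ^ w e` maps `f` to the polynomial with coefficients
`aeval z (weightedHomogeneousComponent w d f)`). A polynomial in `l` vanishing for all `l ≠ 0` is 0
(`Polynomial.eq_zero_of_infinite_isRoot`), so every coefficient vanishes.
`VI_SS_le_orig`: take `c p = p` (all weights `e.1.1 - e.1.2 ≥ 1`). The component of degree 0 of `f ∈ VI` is the constant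
`C (constantCoeff f)` and lies in `VI (SS x v)`; as `SS x v` is nonempty, `constantCoeff f = 0`; so `f` is in the ideal of the
variables (`MvPolynomial.mem_ideal_span_X_image` or induction / `f - C (constantCoeff f)`).
-/

open Finset MvPolynomial

noncomputable section

namespace CMT

variable {n : ℕ}

/-- (A10) torus action -/
theorem torus_SS {x v : Equiv.Perm (Fin n)} (c : Fin n → ℕ) (hc : Monotone c) (l : ℂ) (hl : l ≠ 0)
    {z : Low n → ℂ} (hz : z ∈ SS x v) :
    (fun e : Low n => l ^ (c e.1.1 - c e.1.2) * z e) ∈ SS x v := by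
  have hD : IsUpper (Matrix.diagonal fun i : Fin n => l ^ c i) :=
    isUpper_diag fun i => pow_ne_zero _ hl
  have hD' : IsUpper (Matrix.diagonal fun i : Fin n => l ^ c (x⁻¹ i)) :=
    isUpper_diag fun i => pow_ne_zero _ hl
  have key : lowMat (fun e : Low n => l ^ (c e.1.1 - c e.1.2) * z e) *
      Matrix.diagonal (fun i : Fin n => l ^ c i) =
      Matrix.diagonal (fun i : Fin n => l ^ c i) * lowMat z := by
    ext i j
    rw [Matrix.mul_diagonal, Matrix.diagonal_mul]
    rcases lt_trichotomy i j with h | rfl | h
    · rw [lowMat_gt _ h, lowMat_gt _ h, zero_mul, mul_zero]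
    · rw [lowMat_diag, lowMat_diag, one_mul, mul_one]
    · rw [lowMat_lt _ h, lowMat_lt _ h]
      have h1 : l ^ c i = l ^ (c i - c j) * l ^ c j := by
        rw [← pow_add, Nat.sub_add_cancel (hc h.le)]
      simp only
      rw [h1]
      ring
  change permMat ℂ x * lowMat _ ∈ Cell v
  rw [← cell_mul_right_iff hD, Matrix.mul_assoc, key, ← Matrix.mul_assoc, permMat_diag,
    Matrix.mul_assoc, cell_mul_left_iff hD']
  exact hz

/-- evaluation along a one-parameter family -/
theorem A10_coeff (w : Low n → ℕ) (z : Low n → ℂ) (f : MvPolynomial (Low n) ℂ) (d : ℕ) :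
    (aeval (fun e => Polynomial.C (z e) * Polynomial.X ^ w e) f : Polynomial ℂ).coeff d =
      aeval z (weightedHomogeneousComponent w d f) := by
  induction f using MvPolynomial.induction_on' with
  | monomial u a =>
    have h1 : (aeval (fun e => Polynomial.C (z e) * Polynomial.X ^ w e) (monomial u a) :
        Polynomial ℂ) = Polynomial.C (a * u.prod fun i k => z i ^ k) *
          Polynomial.X ^ (Finsupp.weight w u) := by
      rw [aeval_monomial, Finsupp.weight_apply, map_mul, mul_assoc]
      congr 1
      unfold Finsupp.prod Finsupp.sum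
      rw [map_prod, ← Finset.prod_pow_eq_pow_sum, ← Finset.prod_mul_distrib]
      apply Finset.prod_congr rfl
      intro i _
      simp only
      rw [mul_pow, ← pow_mul, map_pow, smul_eq_mul, mul_comm (w i)]
    rw [h1, Polynomial.coeff_C_mul_X_pow,
      weightedHomogeneousComponent_of_mem
        ((mem_weightedHomogeneousSubmodule _ _ _ _).2 (isWeightedHomogeneous_monomial w u a rfl))]
    split_ifs with h2
    · rw [aeval_monomial]
      rfl
    · rw [map_zero]
  | add p q hp hq =>
    rw [map_add, Polynomial.coeff_add, hp, hq, map_add, map_add]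

/-- (A10) the ideals are homogeneous -/
theorem VI_SS_homogeneous {x v : Equiv.Perm (Fin n)} (c : Fin n → ℕ) (hc : Monotone c)
    (f : MvPolynomial (Low n) ℂ) (hf : f ∈ VI (SS x v)) (d : ℕ) :
    weightedHomogeneousComponent (fun e : Low n => c e.1.1 - c e.1.2) d f ∈ VI (SS x v) := by
  rw [mem_vanishingIdeal_iff] at hf ⊢
  intro z hz
  rw [← A10_coeff]
  have h0 : (aeval (fun e : Low n => Polynomial.C (z e) *
      Polynomial.X ^ (c e.1.1 - c e.1.2)) f : Polynomial ℂ) = 0 := by
    apply Polynomial.eq_zero_of_infinite_isRoot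
    refine (Set.finite_singleton (0 : ℂ)).infinite_compl.mono ?_
    intro l hl
    have hl0 : l ≠ 0 := by simpa using hl
    have h1 := hf _ (torus_SS c hc l hl0 hz)
    change Polynomial.eval l _ = 0
    rw [← Polynomial.coe_aeval_eq_eval, ← h1]
    rw [MvPolynomial.comp_aeval_apply]
    have h2 : (fun e : Low n => Polynomial.aeval l (Polynomial.C (z e) *
        Polynomial.X ^ (c e.1.1 - c e.1.2))) = fun e : Low n => l ^ (c e.1.1 - c e.1.2) * z e := by
      funext e
      rw [map_mul, map_pow, Polynomial.aeval_X, Polynomial.aeval_C, mul_comm]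
      rfl
    rw [h2]
  rw [h0, Polynomial.coeff_zero]

/-- (A10) the origin lies on `X_v` in the chart at `e_x` as soon as the chart meets the cell -/
theorem VI_SS_le_orig {x v : Equiv.Perm (Fin n)} (h : (SS x v).Nonempty) :
    VI (SS x v) ≤ Ideal.span (Set.range (X : Low n → MvPolynomial (Low n) ℂ)) := by
  intro f hf
  obtain ⟨z, hz⟩ := h
  have h1 := VI_SS_homogeneous (x := x) (v := v) (fun i : Fin n => i.val)
    (fun _ _ h => h) f hf 0
  rw [weightedHomogeneousComponent_zero] at h1
  · rw [mem_vanishingIdeal_iff] at h1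
    have h2 := h1 z hz
    rw [aeval_C] at h2
    have h3 : coeff 0 f = 0 := h2
    rw [← Set.image_univ, mem_ideal_span_X_image]
    intro m hm
    by_contra hcon
    push Not at hcon
    have h4 : m = 0 := by
      ext i
      exact hcon i (Set.mem_univ _)
    rw [mem_support_iff, h4] at hm
    exact hm h3
  · intro e
    have := e.2
    simp only [ne_eq]
    have h5 : e.1.2.val < e.1.1.val := this
    omega

end CMT
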