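import Pool.Agent.H43.CM.A.A0

/-!
# CM, job A2: vanishing minors on a cell (A2)

Proof. `M = b * permMat v * b'`. Let `P = {j < k : i ≤ w j}` (as a subset of `Fin k`), `#P = rk w i k`, and
`L = {l < k : i ≤ v l}`, `#L = rk v i k < #P`. For `j ∈ P`, `c < k`:
`M (w j) c = ∑_l b (w j) (v l) * b' l c`; here `b' l c = 0` unless `l ≤ c < k`, and `b (w j) (v l) = 0` unless
`w j ≤ v l`, so `v l ≥ i`. So only `l ∈ L` contribute: the rows `j ∈ P` of the `k × k` matrix `N = (M (w j) c)` are linear
combinations of the `#L` vectors `b'_l = (b' l c)_{c < k}`, `l ∈ L`. Since `#L < #P` these rows are linearly dependent, so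
`det N = 0`. (E.g.: there is a nonzero `y : P → ℂ` with `∑_{j ∈ P} y_j b (w j) (v l) = 0` for all `l ∈ L`
(`Matrix.exists_mulVec_eq_zero_of_lt` / `exists_ne_zero_of_finrank...`: a linear map from a space of
dimension `#P` to one of dimension `#L < #P` has a nonzero kernel), extend `y` by zero to `Fin k`; then
`Matrix.vecMul y N = 0` with `y ≠ 0` and `Matrix.exists_vecMul_eq_zero_iff`.)
-/

open Finset

noncomputable section

namespace CMT

variable {n : ℕ}

theorem a2_card (w : Equiv.Perm (Fin n)) (k : ℕ) (hk : k ≤ n) (i : ℕ) :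
    Fintype.card {j : Fin k // i ≤ (w (Fin.castLE hk j)).val} = rk w i k := by
  rw [Fintype.card_subtype, rk]
  refine Finset.card_bij (fun j _ => Fin.castLE hk j) ?_ ?_ ?_
  · intro j hj
    rw [Finset.mem_filter] at hj ⊢
    exact ⟨Finset.mem_univ _, j.2, hj.2⟩
  · intro j _ j' _ h
    exact Fin.castLE_injective hk h
  · intro l hl
    rw [Finset.mem_filter] at hl
    refine ⟨⟨l.val, hl.2.1⟩, ?_, rfl⟩
    rw [Finset.mem_filter]
    exact ⟨Finset.mem_univ _, hl.2.2⟩

/-- (A2) -/
theorem mnr_eq_zero {v w : Equiv.Perm (Fin n)} {M : Matrix (Fin n) (Fin n) ℂ} (hM : M ∈ Cell v)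
    (k : ℕ) (hk : k ≤ n) (i : ℕ) (h : rk v i k < rk w i k) : mnr w k hk M = 0 := by
  classical
  obtain ⟨b, b', hb, hb', rfl⟩ := hM
  let P := {j : Fin k // i ≤ (w (Fin.castLE hk j)).val}
  let L := {j : Fin k // i ≤ (v (Fin.castLE hk j)).val}
  have hcP : Fintype.card P = rk w i k := a2_card w k hk i
  have hcL : Fintype.card L = rk v i k := a2_card v k hk i
  let T : (P → ℂ) →ₗ[ℂ] (L → ℂ) :=
    { toFun := fun y l => ∑ j : P, y j * b (w (Fin.castLE hk j.1)) (v (Fin.castLE hk l.1))
      map_add' := by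
        intro y y'
        ext l
        simp only [Pi.add_apply, add_mul, Finset.sum_add_distrib]
      map_smul' := by
        intro c y
        ext l
        simp only [Pi.smul_apply, smul_eq_mul, RingHom.id_apply, Finset.mul_sum, mul_assoc] }
  have hker : LinearMap.ker T ≠ ⊥ := by
    apply LinearMap.ker_ne_bot_of_finrank_lt
    rw [Module.finrank_fintype_fun_eq_card, Module.finrank_fintype_fun_eq_card]
    omega
  obtain ⟨y, hy, hy0⟩ := Submodule.exists_mem_ne_zero_of_ne_bot hker
  have hT : ∀ l : L, ∑ j : P, y j * b (w (Fin.castLE hk j.1)) (v (Fin.castLE hk l.1)) = 0 := by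
    intro l
    have : T y = 0 := hy
    exact congrFun this l
  let y' : Fin k → ℂ := fun j => if hj : i ≤ (w (Fin.castLE hk j)).val then y ⟨j, hj⟩ else 0
  have hy' : y' ≠ 0 := by
    intro h0
    apply hy0
    ext j
    have h1 := congrFun h0 j.1
    simp only [y', dif_pos j.2, Pi.zero_apply] at h1
    exact h1
  -- sums against `y'` are sums over `P`
  have hsum : ∀ F : Fin k → ℂ, ∑ j, y' j * F j = ∑ j : P, y j * F j.1 := by
    intro F
    have e1 : ∑ j : P, y j * F j.1 = ∑ j : P, y' j.1 * F j.1 := by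
      refine Finset.sum_congr rfl fun j _ => ?_
      simp only [y', dif_pos j.2]
      rfl
    have e2 : ∑ j ∈ Finset.univ.filter (fun j : Fin k => i ≤ (w (Fin.castLE hk j)).val), y' j * F j
        = ∑ j : P, y' j.1 * F j.1 :=
      Finset.sum_subtype _ (fun j => by simp) (fun j => y' j * F j)
    rw [e1, ← e2]
    refine (Finset.sum_filter_of_ne fun j _ hne => ?_).symm
    by_contra hj
    apply hne
    simp only [y', dif_neg hj, zero_mul]
  rw [mnr]
  apply Matrix.exists_vecMul_eq_zero_iff.1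
  refine ⟨y', hy', ?_⟩
  ext c
  have hN : ∀ j : Fin k, (b * permMat ℂ v * b') (w (Fin.castLE hk j)) (Fin.castLE hk c)
      = ∑ l : Fin n, b (w (Fin.castLE hk j)) (v l) * b' l (Fin.castLE hk c) := by
    intro j
    rw [Matrix.mul_apply]
    refine Finset.sum_congr rfl fun l _ => ?_
    rw [mul_permMat_apply]
  show ∑ j, y' j * (b * permMat ℂ v * b') (w (Fin.castLE hk j)) (Fin.castLE hk c) = 0
  simp only [hN, Finset.mul_sum]
  rw [Finset.sum_comm]
  refine Finset.sum_eq_zero fun l _ => ?_
  have h1 : ∑ j, y' j * (b (w (Fin.castLE hk j)) (v l) * b' l (Fin.castLE hk c))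
      = (∑ j, y' j * b (w (Fin.castLE hk j)) (v l)) * b' l (Fin.castLE hk c) := by
    rw [Finset.sum_mul]
    exact Finset.sum_congr rfl fun j _ => by ring
  rw [h1]
  by_cases hlk : l.val < k
  · by_cases hvl : i ≤ (v l).val
    · have h2 := hT ⟨⟨l.val, hlk⟩, hvl⟩
      rw [hsum]
      rw [show Fin.castLE hk (⟨l.val, hlk⟩ : Fin k) = l from rfl] at h2
      rw [h2, zero_mul]
    · have h2 : ∑ j, y' j * b (w (Fin.castLE hk j)) (v l) = 0 := by
        refine Finset.sum_eq_zero fun j _ => ?_
        by_cases hj : i ≤ (w (Fin.castLE hk j)).val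
        · rw [hb.1 (w (Fin.castLE hk j)) (v l) (by
            rw [Fin.lt_def]
            omega), mul_zero]
        · simp only [y', dif_neg hj, zero_mul]
      rw [h2, zero_mul]
  · rw [hb'.1 l (Fin.castLE hk c) (by
      rw [Fin.lt_def]
      have := c.2
      show c.val < l.val
      omega), mul_zero]

end CMT
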