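import Pool.Agent.H43.CM.A.A1
import Pool.Agent.H43.CM.A.A2
import Pool.Agent.H43.CM.B.B8

/-!
# CM, job A3: uniqueness of the cell, evaluation of the minors, closed points, the chart at `w0`
(A3', A4, A11, A13)

`ble_of_mem`: the core: if `M ∈ Cell w`, and `mnr w k M ≠ 0` for all `k ≤ n` on a point of `Cell v`, then `ble w v`.
`cell_disjoint`: `mnr v k M ≠ 0` for all `k` by A1 (for `v, v`), so `ble v w` by A2 for `M ∈ Cell w` (contrapositive; for
`k > n` use `rk_of_ge` and `rk_top`); symmetric; `ble_antisymm`.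
`aeval_pmnr`: `mnr` is a determinant, `aeval z` is a ring homomorphism: `RingHom.map_det`, `lowMat_map`, `permMat_map`,
`Matrix.map_mul`.
`ble_of_closure` (A4): `z` is a zero of `I_{x,v}` and `z ∈ SS x w`. For every `k ≤ n`: `mnr w k (x * lowMat z) ≠ 0` (A1 for `w, w`),
so `pmnr x w k ∉ VI (SS x v)`, so there is `z' ∈ SS x v` with `mnr w k (x * lowMat z') ≠ 0`, so by A2 `rk w i k ≤ rk v i k`.
`SS_rev`: `permMat w0 * lowMat z = (permMat w0 * lowMat z * permMat w0) * permMat w0` and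
`permMat w0 * lowMat z * permMat w0` is upper triangular with ones on the diagonal (`w0 i = rev i` reverses both
rows and columns). `SS_one_one`: `lowMat z ∈ Cell 1` means `lowMat z = b * b'` upper, so `z = 0`.
-/

open Finset MvPolynomial

noncomputable section

namespace CMT

variable {n : ℕ}

theorem ble_of_mnr_ne {v w : Equiv.Perm (Fin n)}
    (h : ∀ k (hk : k ≤ n), ∃ M ∈ Cell v, mnr w k hk M ≠ 0) : ble w v := by
  intro i k
  by_cases hk : k ≤ n
  · by_contra hlt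
    push Not at hlt
    obtain ⟨M, hM, hne⟩ := h k hk
    exact hne (mnr_eq_zero hM k hk i hlt)
  · push Not at hk
    rw [rk_of_ge w i k hk.le, rk_of_ge v i k hk.le, rk_top w v i]

/-- (A3') -/
theorem cell_disjoint {v w : Equiv.Perm (Fin n)} {M : Matrix (Fin n) (Fin n) ℂ} (hv : M ∈ Cell v)
    (hw : M ∈ Cell w) : v = w :=
  ble_antisymm (ble_of_mnr_ne fun _ hk => ⟨M, hw, mnr_ne_zero hv _ hk (fun _ => rfl)⟩)
    (ble_of_mnr_ne fun _ hk => ⟨M, hv, mnr_ne_zero hw _ hk (fun _ => rfl)⟩)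

theorem mnr_map {R S : Type*} [CommRing R] [CommRing S] (f : R →+* S) (w : Equiv.Perm (Fin n))
    (k : ℕ) (hk : k ≤ n) (M : Matrix (Fin n) (Fin n) R) :
    f (mnr w k hk M) = mnr w k hk (M.map f) := by
  unfold mnr
  rw [RingHom.map_det]
  rfl

theorem aeval_pmnr (x w : Equiv.Perm (Fin n)) (k : ℕ) (hk : k ≤ n) (z : Low n → ℂ) :
    aeval z (pmnr x w k hk) = mnr w k hk (permMat ℂ x * lowMat z) := by
  have h := mnr_map (aeval z : MvPolynomial (Low n) ℂ →ₐ[ℂ] ℂ).toRingHom w k hk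
    (permMat _ x * lowMat (fun e : Low n => (X e : MvPolynomial (Low n) ℂ)))
  rw [Matrix.map_mul, permMat_map, lowMat_map] at h
  refine Eq.trans h ?_
  congr 3
  ext e
  simp

/-- (A4) -/
theorem ble_of_closure {x v w : Equiv.Perm (Fin n)} {z : Low n → ℂ}
    (hz : ∀ f ∈ VI (SS x v), aeval z f = 0) (hw : z ∈ SS x w) : ble w v := by
  apply ble_of_mnr_ne
  intro k hk
  by_contra hcon
  push Not at hcon
  have h1 : pmnr x w k hk ∈ VI (SS x v) := by
    rw [mem_vanishingIdeal_iff]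
    intro z' hz'
    rw [aeval_pmnr]
    exact hcon _ hz'
  have h2 := hz _ h1
  rw [aeval_pmnr] at h2
  exact mnr_ne_zero hw k hk (fun _ => rfl) h2

/-- `I_{x,v} ≤ I_{x,w}` and `SS x w` nonempty imply `w ≤ v` -/
theorem ble_of_VI_le {x v w : Equiv.Perm (Fin n)} (h : VI (SS x v) ≤ VI (SS x w))
    (hne : (SS x w).Nonempty) : ble w v := by
  obtain ⟨z, hz⟩ := hne
  exact ble_of_closure (fun f hf => (mem_vanishingIdeal_iff.mp (h hf)) z hz) hz

/-- (A11) -/
theorem SS_rev : SS (Fin.revPerm : Equiv.Perm (Fin n)) Fin.revPerm = Set.univ := by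
  rw [Set.eq_univ_iff_forall]
  intro z
  have hrr : (Fin.revPerm : Equiv.Perm (Fin n)) * Fin.revPerm = 1 := by
    ext i
    simp
  have hinv : (Fin.revPerm : Equiv.Perm (Fin n))⁻¹ = Fin.revPerm := inv_eq_of_mul_eq_one_left hrr
  have hent : ∀ i j : Fin n, (permMat ℂ (Fin.revPerm : Equiv.Perm (Fin n)) * lowMat z *
      permMat ℂ (Fin.revPerm : Equiv.Perm (Fin n))) i j = lowMat z (Fin.rev i) (Fin.rev j) := by
    intro i j
    rw [mul_permMat_apply, permMat_mul_apply, hinv]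
    rfl
  refine ⟨permMat ℂ (Fin.revPerm : Equiv.Perm (Fin n)) * lowMat z *
    permMat ℂ (Fin.revPerm : Equiv.Perm (Fin n)), 1, ⟨?_, ?_⟩, isUpper_one, ?_⟩
  · intro i j h
    rw [hent]
    exact lowMat_gt _ (Fin.rev_lt_rev.2 h)
  · intro i
    rw [hent, lowMat_diag]
    exact one_ne_zero
  · rw [Matrix.mul_one, Matrix.mul_assoc, ← permMat_mul, hrr, permMat_one, Matrix.mul_one]

theorem SS_rev_empty {v : Equiv.Perm (Fin n)} (h : (SS Fin.revPerm v).Nonempty) :
    v = Fin.revPerm := by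
  obtain ⟨z, hz⟩ := h
  have : z ∈ SS (Fin.revPerm : Equiv.Perm (Fin n)) Fin.revPerm := by rw [SS_rev]; trivial
  exact cell_disjoint hz this

/-- (A13) -/
theorem SS_one_one {z : Low n → ℂ} (hz : z ∈ SS 1 1) : z = 0 := by
  obtain ⟨b, b', hb, hb', h⟩ := hz
  rw [permMat_one, Matrix.one_mul, Matrix.mul_one] at h
  funext e
  obtain ⟨⟨i, j⟩, hij⟩ := e
  have h1 := congrFun (congrFun h i) j
  rw [lowMat_lt z hij, (hb.mul hb').1 i j hij] at h1
  exact h1

theorem zero_mem_SS (x : Equiv.Perm (Fin n)) : (0 : Low n → ℂ) ∈ SS x x := by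
  show permMat ℂ x * lowMat (fun _ : Low n => (0 : ℂ)) ∈ Cell x
  rw [lowMat_zero, Matrix.mul_one]
  exact permMat_mem_cell x

end CMT
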