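import Pool.Agent.H43.CM.A.A0

/-!
# CM, job A5: 2 x 2 block identities (A5)

Notation: `q0 = q`, `q1 = q + 1` as elements of `Fin n`, `s = sr q hq`, `S = permMat s`, `X(t) = xq q hq t = transvection q1 q0 t` (`xq_eq`)
(lower), `U(y) = transvection q0 q1 y` (upper).
`upper_split`: for upper `c` let `y = c q0 q1 / c q1 q1`; then `c = U(y) * c0` with `c0 = U(-y) * c` upper and
`c0 q0 q1 = 0`, and `S * c0 * S` is upper (only the entry `(q0, q1)` of an upper matrix could become a nonzero entry
below the diagonal), so `c * S = U(y) * S * c1`, `c1 = S * c0 * S` upper (`S * S = 1`).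
`transv_sr`: (2 x 2 identity) for `y ≠ 0`: `U(y) * S = X(1/y) * c` with `c` upper: `c = X(-1/y) * U(y) * S`: in rows/columns
`q0, q1`: `[[1,y],[0,1]] * [[0,1],[1,0]] = [[y,1],[1,0]] = [[1,0],[1/y,1]] * [[y,1],[0,-1/y]]`, identity elsewhere.
`xq_split`: for `t ≠ 0`: `X(t) = U(1/t) * S * c` with `c` upper, block `[[t,1],[0,-1/t]]`.
[For these identities it is convenient to define the block matrix `blk a b c d` = identity with the 2x2 block
`[[a,b],[c,d]]` in rows and columns `q0, q1`, and to prove `blk * blk = blk` of the product once, `S = blk 0 1 1 0`,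
`U(y) = blk 1 y 0 1`, `X(t) = blk 1 0 t 1`, `blk a b 0 d` upper if `a, d ≠ 0`.]
-/

open Finset

noncomputable section

namespace CMT

variable {n : ℕ}

theorem xq_eq {R : Type*} [CommRing R] (q : ℕ) (hq : q + 1 < n) (t : R) :
    (xq q hq t : Matrix (Fin n) (Fin n) R) = Matrix.transvection (q1 q hq) (q0 q hq) t := rfl

private theorem q0_ne (q : ℕ) (hq : q + 1 < n) : q0 q hq ≠ q1 q hq := by
  intro h
  have := congrArg Fin.val h
  simp [q0, q1] at this

private theorem q0_lt (q : ℕ) (hq : q + 1 < n) : q0 q hq < q1 q hq := by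
  rw [Fin.lt_def]
  simp [q0, q1]

/-- the identity with a block in rows and columns `q`, `q + 1` -/
private def blk (q : ℕ) (hq : q + 1 < n) (a b c d : ℂ) : Matrix (Fin n) (Fin n) ℂ :=
  1 + Matrix.single (q0 q hq) (q0 q hq) (a - 1) + Matrix.single (q0 q hq) (q1 q hq) b +
    Matrix.single (q1 q hq) (q0 q hq) c + Matrix.single (q1 q hq) (q1 q hq) (d - 1)

private theorem blk_mul (q : ℕ) (hq : q + 1 < n) (a b c d a' b' c' d' : ℂ) :
    blk q hq a b c d * blk q hq a' b' c' d' =
      blk q hq (a * a' + b * c') (a * b' + b * d') (c * a' + d * c') (c * b' + d * d') := by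
  have h := q0_ne q hq
  have h' := h.symm
  unfold blk
  simp only [mul_add, add_mul, one_mul, mul_one, Matrix.single_mul_single_same,
    Matrix.single_mul_single_of_ne _ _ _ _ h, Matrix.single_mul_single_of_ne _ _ _ _ h', add_zero,
    zero_add]
  ext i j
  simp only [Matrix.add_apply, Matrix.single_apply, Matrix.one_apply]
  split_ifs <;> ring

private theorem blk_U (q : ℕ) (hq : q + 1 < n) (y : ℂ) :
    Matrix.transvection (q0 q hq) (q1 q hq) y = blk q hq 1 y 0 1 := by
  simp [blk, Matrix.transvection]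

private theorem blk_X (q : ℕ) (hq : q + 1 < n) (t : ℂ) : xq q hq t = blk q hq 1 0 t 1 := by
  simp [blk, xq]

private theorem blk_S (q : ℕ) (hq : q + 1 < n) : permMat ℂ (sr q hq) = blk q hq 0 1 1 0 := by
  have h := q0_ne q hq
  have h' := h.symm
  ext i j
  unfold permMat blk sr
  simp only [Matrix.add_apply, Matrix.single_apply, Matrix.one_apply]
  by_cases hj0 : j = q0 q hq
  · subst hj0
    rw [Equiv.swap_apply_left]
    by_cases hi0 : i = q0 q hq
    · subst hi0
      simp [h, h']
    · by_cases hi1 : i = q1 q hq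
      · subst hi1
        simp [h, h']
      · simp [hi0, hi1, Ne.symm hi0, Ne.symm hi1, eq_comm]
  · by_cases hj1 : j = q1 q hq
    · subst hj1
      rw [Equiv.swap_apply_right]
      by_cases hi0 : i = q0 q hq
      · subst hi0
        simp [h, h']
      · by_cases hi1 : i = q1 q hq
        · subst hi1
          simp [h, h']
        · simp [hi0, hi1, Ne.symm hi0, Ne.symm hi1, eq_comm]
    · rw [Equiv.swap_apply_of_ne_of_ne hj0 hj1]
      simp [Ne.symm hj0, Ne.symm hj1]

private theorem blk_upper (q : ℕ) (hq : q + 1 < n) {a b d : ℂ} (ha : a ≠ 0) (hd : d ≠ 0) :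
    IsUpper (blk q hq a b 0 d) := by
  have h := q0_ne q hq
  have h' := h.symm
  have hlt := q0_lt q hq
  refine ⟨fun i j hij => ?_, fun i => ?_⟩
  · unfold blk
    simp only [Matrix.add_apply, Matrix.single_apply, Matrix.one_apply]
    simp only [ite_self]
    rw [if_neg hij.ne', if_neg, if_neg, if_neg]
    · simp
    · rintro ⟨h1, h2⟩
      exact hij.ne' (h1.symm.trans h2)
    · rintro ⟨h1, h2⟩
      rw [← h1, ← h2] at hij
      exact absurd hij (not_lt.2 hlt.le)
    · rintro ⟨h1, h2⟩
      exact hij.ne' (h1.symm.trans h2)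
  · unfold blk
    simp only [Matrix.add_apply, Matrix.single_apply, Matrix.one_apply_eq]
    by_cases hi0 : i = q0 q hq
    · subst hi0
      simp [h, h', ha]
    · by_cases hi1 : i = q1 q hq
      · subst hi1
        simp [h, h', hd]
      · simp [hi0, hi1, Ne.symm hi0, Ne.symm hi1]

private theorem sr_lt (q : ℕ) (hq : q + 1 < n) {i j : Fin n} (h : j < i) :
    sr q hq j < sr q hq i ∨ (j = q0 q hq ∧ i = q1 q hq) := by
  have key : ∀ k : Fin n, ((sr q hq k).val = if k.val = q then q + 1 else if k.val = q + 1 then q else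
      k.val) := by
    intro k
    unfold sr
    by_cases h0 : k = q0 q hq
    · subst h0
      rw [Equiv.swap_apply_left]
      simp [q0, q1]
    · by_cases h1 : k = q1 q hq
      · subst h1
        rw [Equiv.swap_apply_right]
        simp [q0, q1]
      · rw [Equiv.swap_apply_of_ne_of_ne h0 h1]
        have h0' : k.val ≠ q := fun e => h0 (Fin.ext e)
        have h1' : k.val ≠ q + 1 := fun e => h1 (Fin.ext e)
        rw [if_neg h0', if_neg h1']
  by_cases hc : j.val = q ∧ i.val = q + 1
  · exact Or.inr ⟨Fin.ext hc.1, Fin.ext hc.2⟩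
  · left
    rw [Fin.lt_def] at h ⊢
    rw [key, key]
    split_ifs <;> omega

private theorem sr_inv (q : ℕ) (hq : q + 1 < n) : (sr q hq)⁻¹ = sr q hq := by
  unfold sr
  exact Equiv.swap_inv _ _

private theorem psr_sr (q : ℕ) (hq : q + 1 < n) :
    permMat ℂ (sr q hq) * permMat ℂ (sr q hq) = 1 := by
  have := permMat_inv_mul (R := ℂ) (sr q hq)
  rwa [sr_inv] at this

theorem upper_split (q : ℕ) (hq : q + 1 < n) {c : Matrix (Fin n) (Fin n) ℂ} (hc : IsUpper c) :
    ∃ (y : ℂ) (c1 : Matrix (Fin n) (Fin n) ℂ), IsUpper c1 ∧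
      c * permMat ℂ (sr q hq)
        = Matrix.transvection (q0 q hq) (q1 q hq) y * permMat ℂ (sr q hq) * c1 := by
  set y : ℂ := c (q0 q hq) (q1 q hq) / c (q1 q hq) (q1 q hq) with hy
  have h11 : c (q1 q hq) (q1 q hq) ≠ 0 := hc.2 _
  have hu : IsUpper (Matrix.transvection (q0 q hq) (q1 q hq) (-y) * c) :=
    (isUpper_transv (q0_lt q hq) _).mul hc
  have h01 : (Matrix.transvection (q0 q hq) (q1 q hq) (-y) * c) (q0 q hq) (q1 q hq) = 0 := by
    rw [Matrix.transvection_mul_apply_same, hy]
    field_simp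
    ring
  refine ⟨y, permMat ℂ (sr q hq) * (Matrix.transvection (q0 q hq) (q1 q hq) (-y) * c) *
    permMat ℂ (sr q hq), ⟨fun i j hij => ?_, fun i => ?_⟩, ?_⟩
  · rw [mul_permMat_apply, permMat_mul_apply, sr_inv]
    rcases sr_lt q hq hij with h | ⟨h1, h2⟩
    · exact hu.1 _ _ h
    · rw [h1, h2]
      have e0 : sr q hq (q0 q hq) = q1 q hq := Equiv.swap_apply_left _ _
      have e1 : sr q hq (q1 q hq) = q0 q hq := Equiv.swap_apply_right _ _
      rw [e0, e1]
      exact h01
  · rw [mul_permMat_apply, permMat_mul_apply, sr_inv]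
    exact hu.2 _
  · have hUU : Matrix.transvection (q0 q hq) (q1 q hq) y *
        Matrix.transvection (q0 q hq) (q1 q hq) (-y) = 1 := by
      rw [Matrix.transvection_mul_transvection_same _ _ (q0_ne q hq), add_neg_cancel,
        Matrix.transvection_zero]
    calc c * permMat ℂ (sr q hq)
        = (Matrix.transvection (q0 q hq) (q1 q hq) y *
          Matrix.transvection (q0 q hq) (q1 q hq) (-y)) * c * permMat ℂ (sr q hq) := by
          rw [hUU, Matrix.one_mul]
      _ = Matrix.transvection (q0 q hq) (q1 q hq) y *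
          (permMat ℂ (sr q hq) * permMat ℂ (sr q hq)) *
          (Matrix.transvection (q0 q hq) (q1 q hq) (-y) * c) * permMat ℂ (sr q hq) := by
          rw [psr_sr, Matrix.mul_one]
          simp only [Matrix.mul_assoc]
      _ = _ := by simp only [Matrix.mul_assoc]

theorem transv_sr (q : ℕ) (hq : q + 1 < n) {y : ℂ} (hy : y ≠ 0) :
    ∃ c : Matrix (Fin n) (Fin n) ℂ, IsUpper c ∧
      Matrix.transvection (q0 q hq) (q1 q hq) y * permMat ℂ (sr q hq) = xq q hq (1 / y) * c := by
  refine ⟨blk q hq y 1 0 (-(1 / y)), blk_upper q hq hy (neg_ne_zero.2 (one_div_ne_zero hy)), ?_⟩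
  rw [blk_U, blk_S, blk_X, blk_mul, blk_mul]
  congr 1 <;> field_simp <;> ring

theorem xq_split (q : ℕ) (hq : q + 1 < n) {t : ℂ} (ht : t ≠ 0) :
    ∃ c : Matrix (Fin n) (Fin n) ℂ, IsUpper c ∧
      xq q hq t = Matrix.transvection (q0 q hq) (q1 q hq) (1 / t) * permMat ℂ (sr q hq) * c := by
  refine ⟨blk q hq t 1 0 (-(1 / t)), blk_upper q hq ht (neg_ne_zero.2 (one_div_ne_zero ht)), ?_⟩
  rw [blk_U, blk_S, blk_X, blk_mul, blk_mul]
  congr 1 <;> field_simp <;> ring

end CMT
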