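import Pool.Agent.H43.CM.A.A5

/-!
# CM, job A5b: the union of two cells is stable under `P_s` (A5)

`sr_core`: for every permutation `v'` and upper `c`: `permMat v' * c * S ∈ Cell v' ∪ Cell (v' * s)`: `c * S = U(y) * S * c1`.
If `asc v'`: `permMat v' * U(y) = transvection (v' q0) (v' q1) y * permMat v'` (`permMat_transv`), upper; so the product is in
`Cell (v' * s)`. If `dsc v'`: for `y = 0` it is `permMat v' * S * c1 ∈ Cell (v' * s)`; for `y ≠ 0`: `U(y) * S = X(1/y) * c2` and
`permMat v' * X(1/y) = transvection (v' q1) (v' q0) (1/y) * permMat v'`, upper, so it is in `Cell v'`.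
`cell2_mul_sr`: `M = b * permMat v' * c`, `v' = w` or `v' = w * s`; `w * s * s = w`. `cell2_mul_xq`: for `t = 0` trivial, for `t ≠ 0`
`M * X(t) = (M * U(1/t)) * S * c`.
(`upper_split`, `transv_sr`, `xq_split` are in `A5`.) The statements hold for every `w` (no assumption on descents).
-/

open Finset

noncomputable section

namespace CMT

variable {n : ℕ}

/-- the union of the cells of `w` and `w * s_q` -/
def Cell2 (q : ℕ) (hq : q + 1 < n) (w : Equiv.Perm (Fin n)) : Set (Matrix (Fin n) (Fin n) ℂ) :=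
  Cell w ∪ Cell (w * sr q hq)

private theorem a5b_core (q : ℕ) (hq : q + 1 < n) (v : Equiv.Perm (Fin n)) (y : ℂ) :
    permMat ℂ v * (Matrix.transvection (q0 q hq) (q1 q hq) y * permMat ℂ (sr q hq)) ∈
      Cell v ∪ Cell (v * sr q hq) := by
  rcases asc_or_dsc v q hq with h | h
  · right
    rw [← Matrix.mul_assoc, permMat_transv, Matrix.mul_assoc, ← permMat_mul]
    exact cell_mul_left (isUpper_transv h y) (permMat_mem_cell _)
  · by_cases hy : y = 0
    · right
      rw [hy, Matrix.transvection_zero, Matrix.one_mul, ← permMat_mul]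
      exact permMat_mem_cell _
    · left
      obtain ⟨c, hc, he⟩ := transv_sr q hq hy
      rw [he, ← Matrix.mul_assoc, xq_eq, permMat_transv]
      exact cell_mul_right hc (cell_mul_left (isUpper_transv h _) (permMat_mem_cell _))

private theorem a5b_cell {q : ℕ} {hq : q + 1 < n} {v : Equiv.Perm (Fin n)}
    {M : Matrix (Fin n) (Fin n) ℂ} (hM : M ∈ Cell v) :
    M * permMat ℂ (sr q hq) ∈ Cell v ∪ Cell (v * sr q hq) := by
  obtain ⟨b, c, hb, hc, rfl⟩ := hM
  obtain ⟨y, c1, hc1, he⟩ := upper_split q hq hc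
  have e1 : b * permMat ℂ v * c * permMat ℂ (sr q hq) =
      b * (permMat ℂ v * (Matrix.transvection (q0 q hq) (q1 q hq) y * permMat ℂ (sr q hq))) *
        c1 := by
    rw [Matrix.mul_assoc (b * permMat ℂ v), he]
    simp only [Matrix.mul_assoc]
  rw [e1]
  rcases a5b_core q hq v y with h | h
  · exact Or.inl (cell_mul_right hc1 (cell_mul_left hb h))
  · exact Or.inr (cell_mul_right hc1 (cell_mul_left hb h))

theorem cell2_mul_sr {q : ℕ} {hq : q + 1 < n} {w : Equiv.Perm (Fin n)}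
    {M : Matrix (Fin n) (Fin n) ℂ} (hM : M ∈ Cell2 q hq w) :
    M * permMat ℂ (sr q hq) ∈ Cell2 q hq w := by
  rcases hM with h | h
  · exact a5b_cell h
  · have h1 := a5b_cell (q := q) (hq := hq) h
    rw [mul_sr_sr] at h1
    exact h1.symm

theorem cell2_mul_xq {q : ℕ} {hq : q + 1 < n} {w : Equiv.Perm (Fin n)}
    {M : Matrix (Fin n) (Fin n) ℂ} (hM : M ∈ Cell2 q hq w) (t : ℂ) :
    M * xq q hq t ∈ Cell2 q hq w := by
  have hup : ∀ {M c : Matrix (Fin n) (Fin n) ℂ}, IsUpper c → M ∈ Cell2 q hq w →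
      M * c ∈ Cell2 q hq w := by
    intro M c hc hM
    rcases hM with h | h
    · exact Or.inl (cell_mul_right hc h)
    · exact Or.inr (cell_mul_right hc h)
  by_cases ht : t = 0
  · rw [ht, xq_eq, Matrix.transvection_zero, Matrix.mul_one]
    exact hM
  · obtain ⟨c, hc, he⟩ := xq_split q hq ht
    have e1 : M * xq q hq t = M * Matrix.transvection (q0 q hq) (q1 q hq) (1 / t) *
        permMat ℂ (sr q hq) * c := by
      rw [he]
      simp only [Matrix.mul_assoc]
    rw [e1]
    exact hup hc (cell2_mul_sr (hup (isUpper_transv (q0_lt_q1 q hq) _) hM))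

theorem cell2_mul_upper {q : ℕ} {hq : q + 1 < n} {w : Equiv.Perm (Fin n)}
    {M c : Matrix (Fin n) (Fin n) ℂ} (hc : IsUpper c) (hM : M ∈ Cell2 q hq w) :
    M * c ∈ Cell2 q hq w := by
  rcases hM with h | h
  · exact Or.inl (cell_mul_right hc h)
  · exact Or.inr (cell_mul_right hc h)

theorem cell2_mul_sr_iff {q : ℕ} {hq : q + 1 < n} {w : Equiv.Perm (Fin n)}
    {M : Matrix (Fin n) (Fin n) ℂ} :
    M * permMat ℂ (sr q hq) ∈ Cell2 q hq w ↔ M ∈ Cell2 q hq w := by
  refine ⟨fun h => ?_, cell2_mul_sr⟩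
  have h1 := cell2_mul_sr h
  rwa [Matrix.mul_assoc, ← permMat_mul, sr_sr, permMat_one, Matrix.mul_one] at h1

theorem cell2_mul_xq_iff {q : ℕ} {hq : q + 1 < n} {w : Equiv.Perm (Fin n)}
    {M : Matrix (Fin n) (Fin n) ℂ} (t : ℂ) :
    M * xq q hq t ∈ Cell2 q hq w ↔ M ∈ Cell2 q hq w := by
  refine ⟨fun h => ?_, fun h => cell2_mul_xq h t⟩
  have h1 := cell2_mul_xq h (-t)
  rwa [Matrix.mul_assoc, xq_eq, xq_eq, Matrix.transvection_mul_transvection_same _ _ (q0_ne_q1 q hq).symm,
    add_neg_cancel, Matrix.transvection_zero, Matrix.mul_one] at h1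

end CMT
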