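import Pool.Agent.H43.CM.A.A3
import Pool.Agent.H43.CM.A.A5b

/-!
# CM, job A6: the fibre rule (A6)

`w` has a descent at `q`, `v = w * s`, `Δ = mnr w (q+1)`, `aa g = Δ (g * S)`, `bb g = - Δ g`.
`mem_iff`: for `h ∈ Cell w ∪ Cell (w s)`: `h ∈ Cell w ↔ Δ h ≠ 0`: A1 if `h ∈ Cell w`; if `h ∈ Cell (w s)`:
`rk (w s) i (q+1) < rk w i (q+1)` for `i = w q` (`rk_q1`, `rk_mul_sr_q1`, `w (q+1) < w q`), A2.
`delta_xq`: `Δ (g * X(t)) = Δ g + t Δ (g * S)`: the columns `0..q-1` of `g * X(t)`, `g`, `g * S` are equal, column `q` of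
`g * X(t)` is `g_q + t g_{q+1}` (`Matrix.mul_transvection_apply_same`), column `q` of `g * S` is `g_{q+1}`
(`mul_permMat_apply`); linearity of the determinant in the last column (`Matrix.det_updateCol_add`,
`Matrix.det_updateCol_smul`).
`delta_sr_xq`: `Δ (g * S * X(t)) = Δ (g * S) + t Δ g` from `delta_xq` for `g * S` and `S * S = 1`.
`ab_ne`: suppose `g ∈ Cell w ∪ Cell (w s)` and `Δ g = 0`, `Δ (g * S) = 0`. Then `g ∈ Cell (w s)`: `g = b1 * permMat (w s) * b2`.
`g * b2⁻¹ * S = b1 * permMat w ∈ Cell w`, so `Δ (g * b2⁻¹ * S) ≠ 0`. By `upper_split` `b2⁻¹ * S = U(y) * S * c1`, so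
`Δ (g * U(y) * S) ≠ 0` (`mnr_mul_upper_ne`). But the columns `0..q-1` of `g * U(y) * S` are those of `g` and column `q` is
`g_{q+1} + y g_q`, so `Δ (g * U(y) * S) = Δ (g * S) + y Δ g = 0`. Contradiction.
-/

open Finset

noncomputable section

namespace CMT

variable {n : ℕ}

/-- the two functions `a`, `b` of the fibre rule -/
def aa {R : Type*} [CommRing R] (q : ℕ) (hq : q + 1 < n) (w : Equiv.Perm (Fin n))
    (g : Matrix (Fin n) (Fin n) R) : R := mnr w (q + 1) (by omega) (g * permMat R (sr q hq))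

def bb {R : Type*} [CommRing R] (q : ℕ) (hq : q + 1 < n) (w : Equiv.Perm (Fin n))
    (g : Matrix (Fin n) (Fin n) R) : R := - mnr w (q + 1) (by omega) g

/-- linearity of the minor in the last column -/
private theorem a6_lin {R : Type*} [CommRing R] (q : ℕ) (hq : q + 1 < n) (hk : q + 1 ≤ n)
    (w : Equiv.Perm (Fin n)) (g1 g2 g3 : Matrix (Fin n) (Fin n) R) (α β : R)
    (h12 : ∀ i j : Fin n, j.val < q → g1 i j = g2 i j)
    (h32 : ∀ i j : Fin n, j.val < q → g3 i j = g2 i j)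
    (h : ∀ i, g1 i (q0 q hq) = α * g2 i (q0 q hq) + β * g3 i (q0 q hq)) :
    mnr w (q + 1) hk g1 = α * mnr w (q + 1) hk g2 + β * mnr w (q + 1) hk g3 := by
  unfold mnr
  have hlast : Fin.castLE hk (Fin.last q) = q0 q hq := Fin.ext rfl
  have hcol : ∀ j : Fin (q + 1), j ≠ Fin.last q → (Fin.castLE hk j).val < q := by
    intro j hj
    have := Fin.lt_last_iff_ne_last.2 hj
    rw [Fin.lt_def] at this
    simpa using this
  have e1 : (Matrix.of fun i j : Fin (q + 1) => g1 (w (Fin.castLE hk i)) (Fin.castLE hk j)) =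
      (Matrix.of fun i j : Fin (q + 1) => g2 (w (Fin.castLE hk i)) (Fin.castLE hk j)).updateCol
        (Fin.last q) ((α • fun i : Fin (q + 1) => g2 (w (Fin.castLE hk i)) (q0 q hq)) +
          (β • fun i : Fin (q + 1) => g3 (w (Fin.castLE hk i)) (q0 q hq))) := by
    ext i j
    by_cases hj : j = Fin.last q
    · subst hj
      rw [Matrix.updateCol_self, Matrix.of_apply, hlast, h]
      simp
    · rw [Matrix.updateCol_ne hj, Matrix.of_apply, Matrix.of_apply, h12 _ _ (hcol j hj)]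
  have e3 : (Matrix.of fun i j : Fin (q + 1) => g3 (w (Fin.castLE hk i)) (Fin.castLE hk j)) =
      (Matrix.of fun i j : Fin (q + 1) => g2 (w (Fin.castLE hk i)) (Fin.castLE hk j)).updateCol
        (Fin.last q) (fun i : Fin (q + 1) => g3 (w (Fin.castLE hk i)) (q0 q hq)) := by
    ext i j
    by_cases hj : j = Fin.last q
    · subst hj
      rw [Matrix.updateCol_self, Matrix.of_apply, hlast]
    · rw [Matrix.updateCol_ne hj, Matrix.of_apply, Matrix.of_apply, h32 _ _ (hcol j hj)]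
  have e2 : (Matrix.of fun i j : Fin (q + 1) => g2 (w (Fin.castLE hk i)) (Fin.castLE hk j)) =
      (Matrix.of fun i j : Fin (q + 1) => g2 (w (Fin.castLE hk i)) (Fin.castLE hk j)).updateCol
        (Fin.last q) (fun i : Fin (q + 1) => g2 (w (Fin.castLE hk i)) (q0 q hq)) := by
    ext i j
    by_cases hj : j = Fin.last q
    · subst hj
      rw [Matrix.updateCol_self, Matrix.of_apply, hlast]
    · rw [Matrix.updateCol_ne hj]
  rw [e1, Matrix.det_updateCol_add, Matrix.det_updateCol_smul, Matrix.det_updateCol_smul, ← e3, ← e2]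

/-- columns of `g * S` -/
private theorem a6_sr_lt {R : Type*} [CommRing R] (q : ℕ) (hq : q + 1 < n)
    (g : Matrix (Fin n) (Fin n) R) (i j : Fin n) (hj : j.val < q) :
    (g * permMat R (sr q hq)) i j = g i j := by
  rw [mul_permMat_apply, sr_ne]
  · rintro rfl
    exact lt_irrefl _ hj
  · rintro rfl
    have : (q1 q hq).val = q + 1 := rfl
    omega

private theorem a6_sr_q {R : Type*} [CommRing R] (q : ℕ) (hq : q + 1 < n)
    (g : Matrix (Fin n) (Fin n) R) (i : Fin n) :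
    (g * permMat R (sr q hq)) i (q0 q hq) = g i (q1 q hq) := by
  rw [mul_permMat_apply, sr_q0]

theorem mem_iff {q : ℕ} {hq : q + 1 < n} {w : Equiv.Perm (Fin n)} (hw : dsc w q hq)
    {g : Matrix (Fin n) (Fin n) ℂ} (hg : g ∈ Cell2 q hq w) :
    g ∈ Cell w ↔ mnr w (q + 1) (by omega) g ≠ 0 := by
  constructor
  · intro h
    exact mnr_ne_zero h (q + 1) (by omega) (fun _ => rfl)
  · intro h
    rcases hg with h1 | h1
    · exact h1
    · exfalso
      refine h (mnr_eq_zero h1 (q + 1) (by omega) (w (q0 q hq)).val ?_)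
      rw [rk_mul_sr_q1, rk_q1 w q hq]
      have hw' : (w (q1 q hq)).val < (w (q0 q hq)).val := hw
      rw [if_neg (by omega), if_pos le_rfl]
      omega

theorem mem_iff' {q : ℕ} {hq : q + 1 < n} {w : Equiv.Perm (Fin n)} (hw : dsc w q hq)
    {g : Matrix (Fin n) (Fin n) ℂ} (hg : g ∈ Cell2 q hq w) :
    g ∈ Cell (w * sr q hq) ↔ mnr w (q + 1) (by omega) g = 0 := by
  have h1 := mem_iff hw hg
  constructor
  · intro h
    by_contra hne
    exact mul_sr_ne w q hq (cell_disjoint h (h1.mpr hne))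
  · intro h
    rcases hg with h2 | h2
    · exact absurd h (h1.mp h2)
    · exact h2

theorem delta_xq {R : Type*} [CommRing R] (q : ℕ) (hq : q + 1 < n) (w : Equiv.Perm (Fin n))
    (g : Matrix (Fin n) (Fin n) R) (t : R) :
    mnr w (q + 1) (by omega) (g * xq q hq t) = aa q hq w g * t - bb q hq w g := by
  unfold aa bb
  rw [a6_lin q hq (by omega) w (g * xq q hq t) g (g * permMat R (sr q hq)) 1 t]
  · ring
  · intro i j hj
    rw [xq_eq, Matrix.mul_transvection_apply_of_ne]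
    rintro rfl
    exact lt_irrefl _ hj
  · intro i j hj
    exact a6_sr_lt q hq g i j hj
  · intro i
    rw [xq_eq, Matrix.mul_transvection_apply_same, a6_sr_q]
    ring

theorem delta_sr_xq {R : Type*} [CommRing R] (q : ℕ) (hq : q + 1 < n) (w : Equiv.Perm (Fin n))
    (g : Matrix (Fin n) (Fin n) R) (t : R) :
    mnr w (q + 1) (by omega) (g * permMat R (sr q hq) * xq q hq t)
      = aa q hq w g - bb q hq w g * t := by
  rw [delta_xq]
  unfold aa bb
  rw [Matrix.mul_assoc, ← permMat_mul, sr_sr, permMat_one, Matrix.mul_one]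
  ring

theorem ab_ne {q : ℕ} {hq : q + 1 < n} {w : Equiv.Perm (Fin n)} (hw : dsc w q hq)
    {g : Matrix (Fin n) (Fin n) ℂ} (hg : g ∈ Cell2 q hq w) :
    aa q hq w g ≠ 0 ∨ bb q hq w g ≠ 0 := by
  by_contra hcon
  push Not at hcon
  obtain ⟨ha, hb⟩ := hcon
  unfold aa at ha
  unfold bb at hb
  rw [neg_eq_zero] at hb
  obtain ⟨b1, b2, hb1, hb2, hgb⟩ := (mem_iff' hw hg).2 hb
  obtain ⟨y, c1, hc1, hs⟩ := upper_split q hq hb2.inv
  have hu : b2 * b2⁻¹ = 1 := Matrix.mul_nonsing_inv _ (isUnit_iff_ne_zero.mpr hb2.det_ne)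
  have h1 : g * (b2⁻¹ * permMat ℂ (sr q hq)) = b1 * permMat ℂ w := by
    rw [hgb]
    calc b1 * permMat ℂ (w * sr q hq) * b2 * (b2⁻¹ * permMat ℂ (sr q hq))
        = b1 * permMat ℂ (w * sr q hq) * (b2 * b2⁻¹) * permMat ℂ (sr q hq) := by
          simp only [Matrix.mul_assoc]
      _ = b1 * (permMat ℂ (w * sr q hq) * permMat ℂ (sr q hq)) := by
          rw [hu, Matrix.mul_one, Matrix.mul_assoc]
      _ = b1 * permMat ℂ w := by
          rw [← permMat_mul, mul_sr_sr]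
  have h2 : g * (b2⁻¹ * permMat ℂ (sr q hq)) ∈ Cell w := by
    rw [h1]
    exact cell_mul_left hb1 (permMat_mem_cell w)
  have h3 : mnr w (q + 1) (by omega) (g * (b2⁻¹ * permMat ℂ (sr q hq))) ≠ 0 :=
    mnr_ne_zero h2 (q + 1) (by omega) (fun _ => rfl)
  rw [hs, ← Matrix.mul_assoc, mnr_mul_upper_ne hc1] at h3
  apply h3
  rw [a6_lin q hq (by omega) w (g * (Matrix.transvection (q0 q hq) (q1 q hq) y * permMat ℂ (sr q hq)))
    g (g * permMat ℂ (sr q hq)) y 1, ha, hb]
  · ring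
  · intro i j hj
    rw [← Matrix.mul_assoc, a6_sr_lt q hq _ i j hj, Matrix.mul_transvection_apply_of_ne]
    rintro rfl
    have : (q1 q hq).val = q + 1 := rfl
    omega
  · intro i j hj
    exact a6_sr_lt q hq g i j hj
  · intro i
    rw [← Matrix.mul_assoc, a6_sr_q, Matrix.mul_transvection_apply_same, a6_sr_q]
    ring

/-- the four rules -/
theorem fibre1 {q : ℕ} {hq : q + 1 < n} {w : Equiv.Perm (Fin n)} (hw : dsc w q hq)
    {g : Matrix (Fin n) (Fin n) ℂ} (hg : g ∈ Cell2 q hq w) (t : ℂ) :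
    g * xq q hq t ∈ Cell w ↔ aa q hq w g * t ≠ bb q hq w g := by
  rw [mem_iff hw (cell2_mul_xq hg t), delta_xq, sub_ne_zero]

theorem fibre2 {q : ℕ} {hq : q + 1 < n} {w : Equiv.Perm (Fin n)} (hw : dsc w q hq)
    {g : Matrix (Fin n) (Fin n) ℂ} (hg : g ∈ Cell2 q hq w) (t : ℂ) :
    g * xq q hq t ∈ Cell (w * sr q hq) ↔ aa q hq w g * t = bb q hq w g := by
  rw [mem_iff' hw (cell2_mul_xq hg t), delta_xq, sub_eq_zero]

theorem fibre3 {q : ℕ} {hq : q + 1 < n} {w : Equiv.Perm (Fin n)} (hw : dsc w q hq)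
    {g : Matrix (Fin n) (Fin n) ℂ} (hg : g ∈ Cell2 q hq w) (t : ℂ) :
    g * permMat ℂ (sr q hq) * xq q hq t ∈ Cell w ↔ bb q hq w g * t ≠ aa q hq w g := by
  rw [mem_iff hw (cell2_mul_xq (cell2_mul_sr hg) t), delta_sr_xq, sub_ne_zero, ne_comm]

theorem fibre4 {q : ℕ} {hq : q + 1 < n} {w : Equiv.Perm (Fin n)} (hw : dsc w q hq)
    {g : Matrix (Fin n) (Fin n) ℂ} (hg : g ∈ Cell2 q hq w) (t : ℂ) :
    g * permMat ℂ (sr q hq) * xq q hq t ∈ Cell (w * sr q hq) ↔ bb q hq w g * t = aa q hq w g := by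
  rw [mem_iff' hw (cell2_mul_xq (cell2_mul_sr hg) t), delta_sr_xq, sub_eq_zero, eq_comm]

end CMT
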