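import Pool.Agent.H43.CM.A.A7a
import Pool.Agent.H43.CM.A.A3

/-!
# CM, job A7c: from a polynomial curve of matrices to a curve in the chart

`G` is a matrix over `ℂ[X]` with `G(0) = lowMat z0`. Let `E = ∏_{k ≤ n} mnr 1 k G ∈ ℂ[X]`; `E(0) = 1` (`mnr_map`;
`mnr 1 k (lowMat z0) = 1`, a lower unitriangular determinant). Let `R0 = Localization.Away E`. All leading minors of
`G` are units in `R0` (divisors of the unit `E`), so by `exists_LU` `G = lowMat z * T` over `R0`.
* `ev c : R0 → ℂ` for `E(c) ≠ 0` (`IsLocalization.Away.lift`), and `ps : R0 → PowerSeries ℂ` (the image of `E` in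
  `PowerSeries ℂ` is a unit since its constant coefficient is `E(0) = 1`: `PowerSeries.isUnit_iff_constantCoeff`),
  `constantCoeff ∘ ps = ev 0` (both extend evaluation at 0, `IsLocalization.ringHom_ext`).
* `φ f = ps (aeval z f)` for `f : MvPolynomial (Low n) ℂ`.
(i) `constantCoeff (φ f) = ev 0 (aeval z f) = aeval (ev 0 ∘ z) f`, and `ev 0 ∘ z = z0` by `LU_unique`:
    `lowMat z0 = G(0) = lowMat (ev 0 ∘ z) * (T.map (ev 0))`.
(ii) `f ∈ VI V`: for every `c ≠ 0` with `E(c) ≠ 0` the point `ev c ∘ z` is in `V` by hypothesis (`T.map (ev c)` is upper with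
    nonzero diagonal entries), so `ev c (aeval z f) = 0`. Write `aeval z f * E^m = algebraMap h`, `h ∈ ℂ[X]`
    (`IsLocalization.Away.surj` or `IsLocalization.surj`). Then `h(c) = 0` for all but finitely many `c`, so `h = 0`
    (`Polynomial.eq_zero_of_infinite_isRoot`), so `aeval z f = 0` and `φ f = 0`.
(iii) `U = T.map ps`: upper triangular, diagonal entries are units, and
    `(G.map (coe to PowerSeries)) = lowMat (ps ∘ z) * U` with `ps (z e) = φ (X e)` (`lowMat_map`, `Matrix.map_mul`).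
Here the ring homomorphism `ℂ[X] → PowerSeries ℂ` is `Polynomial.coeToPowerSeries.ringHom`.
-/

open Finset MvPolynomial

noncomputable section

namespace CMT

variable {n : ℕ}

private theorem a7c_low_minor {R : Type*} [CommRing R] (z : Low n → R) (k : ℕ) (hk : k ≤ n) :
    mnr 1 k hk (lowMat z) = 1 := by
  unfold mnr
  rw [Matrix.det_of_isLowerTriangular]
  · refine Finset.prod_eq_one fun i _ => ?_
    rw [Matrix.of_apply, Equiv.Perm.one_apply, lowMat_diag]
  · intro i j hij
    have hij' : i < j := OrderDual.toDual_lt_toDual.1 hij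
    rw [Matrix.of_apply, Equiv.Perm.one_apply]
    exact lowMat_gt z (by simpa using hij')

private theorem a7c_dvd {R : Type*} [CommRing R] (f : ∀ k, k ≤ n → R) (k : ℕ) (hk : k ≤ n) :
    f k hk ∣ ∏ j : Fin (n + 1), f j.1 (Nat.lt_succ_iff.1 j.2) :=
  Finset.dvd_prod_of_mem (fun j : Fin (n + 1) => f j.1 (Nat.lt_succ_iff.1 j.2))
    (Finset.mem_univ (⟨k, Nat.lt_succ_iff.2 hk⟩ : Fin (n + 1)))

private theorem a7c_exists (p : Polynomial ℂ) (hp : p ≠ 0) : ∃ c : ℂ, c ≠ 0 ∧ p.eval c ≠ 0 := by
  by_contra hcon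
  push Not at hcon
  have h1 : Polynomial.X * p = 0 := by
    refine Polynomial.funext fun c => ?_
    rw [Polynomial.eval_mul, Polynomial.eval_X, Polynomial.eval_zero]
    by_cases hc : c = 0
    · rw [hc, zero_mul]
    · rw [hcon c hc, mul_zero]
  rcases mul_eq_zero.1 h1 with h | h
  · exact Polynomial.X_ne_zero h
  · exact hp h

theorem generic_curve (G : Matrix (Fin n) (Fin n) (Polynomial ℂ)) (z0 : Low n → ℂ)
    (h0 : G.map (Polynomial.evalRingHom 0) = lowMat z0) (V : Set (Low n → ℂ))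
    (hV : ∀ (c : ℂ), c ≠ 0 → ∀ (z : Low n → ℂ) (T : Matrix (Fin n) (Fin n) ℂ), IsUpper T →
      G.map (Polynomial.evalRingHom c) = lowMat z * T → z ∈ V) :
    V.Nonempty ∧ ∃ φ : MvPolynomial (Low n) ℂ →+* PowerSeries ℂ,
      (∀ f, PowerSeries.constantCoeff (φ f) = aeval z0 f) ∧
      (∀ f ∈ VI V, φ f = 0) ∧ (∀ c : ℂ, φ (C c) = PowerSeries.C c) ∧
      ∃ U : Matrix (Fin n) (Fin n) (PowerSeries ℂ), (∀ i j, j < i → U i j = 0) ∧
        (∀ i, IsUnit (U i i)) ∧
        G.map Polynomial.coeToPowerSeries.ringHom = lowMat (fun e => φ (X e)) * U := by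
  classical
  obtain ⟨E, hE⟩ : ∃ E : Polynomial ℂ, E = ∏ k : Fin (n + 1), mnr 1 k.1 (Nat.lt_succ_iff.1 k.2) G :=
    ⟨_, rfl⟩
  have hE0 : Polynomial.evalRingHom 0 E = 1 := by
    rw [hE, map_prod]
    refine Finset.prod_eq_one fun k _ => ?_
    rw [mnr_map, h0]
    exact a7c_low_minor z0 _ _
  have hEne : E ≠ 0 := by
    rintro h
    rw [h, map_zero] at hE0
    exact zero_ne_one hE0
  have hU0 : ∀ k (hk : k ≤ n), IsUnit (mnr 1 k hk (G.map (algebraMap (Polynomial ℂ)
      (Localization.Away E)))) := by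
    intro k hk
    rw [← mnr_map]
    refine IsLocalization.Away.isUnit_of_dvd E ?_
    rw [hE]
    exact a7c_dvd (fun k hk => mnr 1 k hk G) k hk
  obtain ⟨z, T, hGT, hT0, hTu⟩ := exists_LU n _ hU0
  -- evaluations
  have hevE : ∀ (R : Type) [CommRing R] (g : Polynomial ℂ →+* R) (hg : IsUnit (g E)),
      ∃ h : Localization.Away E →+* R, ∀ p, h (algebraMap _ _ p) = g p := by
    intro R _ g hg
    exact ⟨IsLocalization.Away.lift E hg, fun p => IsLocalization.Away.lift_eq E hg p⟩
  have hGmap : ∀ (R : Type) [CommRing R] (g : Polynomial ℂ →+* R)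
      (h : Localization.Away E →+* R) (hh : ∀ p, h (algebraMap _ _ p) = g p),
      G.map g = lowMat (fun e => h (z e)) * T.map h := by
    intro R _ g h hh
    rw [← lowMat_map, ← Matrix.map_mul, ← hGT]
    ext i j
    simp only [Matrix.map_apply]
    exact (hh _).symm
  -- the homomorphism to the localization
  obtain ⟨ψ, hψ⟩ : ∃ ψ : MvPolynomial (Low n) ℂ →+* Localization.Away E,
      ψ = MvPolynomial.eval₂Hom ((algebraMap (Polynomial ℂ) (Localization.Away E)).comp
        Polynomial.C) z := ⟨_, rfl⟩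
  have hψX : ∀ e, ψ (X e) = z e := by
    intro e
    rw [hψ, MvPolynomial.eval₂Hom_X']
  have hψC : ∀ c, ψ (C c) = algebraMap _ _ (Polynomial.C c) := by
    intro c
    rw [hψ, MvPolynomial.eval₂Hom_C]
    rfl
  have hev : ∀ (c : ℂ) (h : Localization.Away E →+* ℂ),
      (∀ p, h (algebraMap _ _ p) = Polynomial.evalRingHom c p) →
      ∀ f, h (ψ f) = aeval (fun e => h (z e)) f := by
    intro c h hh f
    have h1 : h.comp ψ = ((aeval (fun e => h (z e)) : MvPolynomial (Low n) ℂ →ₐ[ℂ] ℂ) :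
        MvPolynomial (Low n) ℂ →+* ℂ) := by
      refine MvPolynomial.ringHom_ext (fun a => ?_) (fun e => ?_)
      · rw [RingHom.comp_apply, hψC, hh]
        simp
      · rw [RingHom.comp_apply, hψX]
        simp
    exact congrArg (fun k : MvPolynomial (Low n) ℂ →+* ℂ => k f) h1
  have hup : ∀ (h : Localization.Away E →+* ℂ), IsUpper (T.map h) := by
    intro h
    refine ⟨fun i j hij => ?_, fun i => ?_⟩
    · rw [Matrix.map_apply, hT0 i j hij, map_zero]
    · rw [Matrix.map_apply]
      exact ((hTu i).map h).ne_zero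
  have hpt : ∀ (c : ℂ), c ≠ 0 → ∀ (h : Localization.Away E →+* ℂ),
      (∀ p, h (algebraMap _ _ p) = Polynomial.evalRingHom c p) → (fun e => h (z e)) ∈ V := by
    intro c hc h hh
    exact hV c hc _ _ (hup h) (hGmap ℂ _ h hh)
  have hevc : ∀ c : ℂ, E.eval c ≠ 0 → ∃ h : Localization.Away E →+* ℂ,
      ∀ p, h (algebraMap _ _ p) = Polynomial.evalRingHom c p := by
    intro c hc
    exact hevE ℂ (Polynomial.evalRingHom c) (isUnit_iff_ne_zero.2 hc)
  -- the power series
  have hEps : IsUnit (Polynomial.coeToPowerSeries.ringHom E : PowerSeries ℂ) := by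
    rw [PowerSeries.isUnit_iff_constantCoeff, Polynomial.coeToPowerSeries.ringHom_apply,
      Polynomial.constantCoeff_coe, Polynomial.coeff_zero_eq_eval_zero]
    have : E.eval 0 = 1 := hE0
    rw [this]
    exact isUnit_one
  obtain ⟨ps, hps⟩ := hevE (PowerSeries ℂ) Polynomial.coeToPowerSeries.ringHom hEps
  have hps0 : ∀ p, (PowerSeries.constantCoeff.comp ps) (algebraMap _ _ p) =
      Polynomial.evalRingHom 0 p := by
    intro p
    rw [RingHom.comp_apply, hps, Polynomial.coeToPowerSeries.ringHom_apply,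
      Polynomial.constantCoeff_coe, Polynomial.coeff_zero_eq_eval_zero]
    rfl
  have hz0 : (fun e => (PowerSeries.constantCoeff.comp ps) (z e)) = z0 := by
    have h1 := hGmap ℂ (Polynomial.evalRingHom 0) (PowerSeries.constantCoeff.comp ps) hps0
    rw [h0] at h1
    exact (LU_unique (hup (PowerSeries.constantCoeff.comp ps)).1 h1).1.symm
  refine ⟨?_, ps.comp ψ, ?_, ?_, ?_, T.map ps, ?_, ?_, ?_⟩
  · obtain ⟨c, hc, hcE⟩ := a7c_exists E hEne
    obtain ⟨h, hh⟩ := hevc c hcE
    exact ⟨_, hpt c hc h hh⟩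
  · intro f
    have h1 := hev 0 (PowerSeries.constantCoeff.comp ps) hps0 f
    rw [hz0] at h1
    exact h1
  · intro f hf
    rw [mem_vanishingIdeal_iff] at hf
    obtain ⟨m, h, hm⟩ := IsLocalization.Away.surj E (ψ f)
    have hh0 : h = 0 := by
      by_contra hne
      obtain ⟨c, hc, hcE⟩ := a7c_exists (E * h) (mul_ne_zero hEne hne)
      rw [Polynomial.eval_mul] at hcE
      obtain ⟨k, hk⟩ := hevc c (left_ne_zero_of_mul hcE)
      have h1 := hev c k hk f
      rw [hf _ (hpt c hc k hk)] at h1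
      have h2 := congrArg k hm
      rw [map_mul, h1, zero_mul, hk] at h2
      exact right_ne_zero_of_mul hcE h2.symm
    rw [hh0, map_zero] at hm
    have h3 : ψ f = 0 := by
      have hu : IsUnit ((algebraMap (Polynomial ℂ) (Localization.Away E) E) ^ m) :=
        (IsLocalization.Away.algebraMap_isUnit E).pow m
      exact (hu.mul_left_eq_zero).1 hm
    rw [RingHom.comp_apply, h3, map_zero]
  · intro c
    rw [RingHom.comp_apply, hψC, hps, Polynomial.coeToPowerSeries.ringHom_apply, Polynomial.coe_C]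
  · intro i j hij
    rw [Matrix.map_apply, hT0 i j hij, map_zero]
  · intro i
    rw [Matrix.map_apply]
    exact (hTu i).map ps
  · rw [hGmap (PowerSeries ℂ) Polynomial.coeToPowerSeries.ringHom ps hps]
    congr 2
    ext e
    rw [RingHom.comp_apply, hψX]

end CMT
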