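import Pool.Agent.H43.CM.A.A7b
import Pool.Agent.H43.CM.A.A7c

/-!
# CM, job A7: the curve lemma (assembly)

Proof. `permMat x * lowMat z0 = b1 * permMat v' * b2`. Let
`Gv = b1.map C * permMat v' * transvection b a X * b2.map C` (over `ℂ[X]`) and `G = permMat x⁻¹ * Gv`.
`G(0) = permMat x⁻¹ * (b1 * permMat v' * b2) = lowMat z0` (`Matrix.map_mul`, `permMat_map`, transvection at `0` is `1`).
Apply `generic_curve` with `V = SS x (v' * swap a b)`. Hypothesis `hV`: if `c ≠ 0` and `G(c) = lowMat z * T`, `T` upper, then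
`permMat x * lowMat z * T = permMat x * G(c) = b1 * permMat v' * transvection b a c * b2 ∈ Cell v` by `mem_cell_curve`, so
`permMat x * lowMat z ∈ Cell v` by `cell_mul_right_iff`.
Last statement: let `Δ = φ (pmnr x v k) = mnr v k (permMat x * lowMat (fun e => φ (X e)))` (`mnr_map`, `lowMat_map`,
`permMat_map`). Multiply `G.map coe = lowMat (φ X) * U` by `permMat x` on the left:
`(Gv).map coe = permMat x * lowMat (φ X) * U`, so by `mnr_mul_upperR` `mnr v k (Gv.map coe) = Δ * u`, `u = ∏_{j<k} U j j` a unit. By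
`mnr_curve` the left side is `X * C d` as a power series, `d ≠ 0`. So `Δ = X * C d * u⁻¹`, and the coefficient of `X^1` is
`d * constantCoeff (u⁻¹) ≠ 0` (`PowerSeries.coeff_succ_X_mul`).
-/

open Finset MvPolynomial

noncomputable section

namespace CMT

variable {n : ℕ}

private theorem a7_transv {R S : Type*} [CommRing R] [CommRing S] (f : R →+* S) (a b : Fin n)
    (c : R) : (Matrix.transvection a b c).map f = Matrix.transvection a b (f c) := by
  ext i j
  simp only [Matrix.map_apply, Matrix.transvection, Matrix.add_apply, Matrix.one_apply,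
    Matrix.single_apply]
  split_ifs <;> simp

private theorem a7_eval (v' : Equiv.Perm (Fin n)) (a b : Fin n) (b1 b2 : Matrix (Fin n) (Fin n) ℂ)
    (c : ℂ) : (b1.map Polynomial.C * permMat (Polynomial ℂ) v' *
      Matrix.transvection b a Polynomial.X * b2.map Polynomial.C).map (Polynomial.evalRingHom c) =
      b1 * permMat ℂ v' * Matrix.transvection b a c * b2 := by
  have hC : ∀ B : Matrix (Fin n) (Fin n) ℂ,
      (B.map Polynomial.C).map (Polynomial.evalRingHom c) = B := by
    intro B
    ext i j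
    simp
  rw [Matrix.map_mul, Matrix.map_mul, Matrix.map_mul, permMat_map, a7_transv, hC, hC,
    Polynomial.coe_evalRingHom, Polynomial.eval_X]

/-- (A7) curve lemma -/
theorem curve {x v' : Equiv.Perm (Fin n)} {a b : Fin n} (hab : a < b) (hv : v' a < v' b)
    {z0 : Low n → ℂ} (hz : z0 ∈ SS x v') :
    (SS x (v' * Equiv.swap a b)).Nonempty ∧
    ∃ φ : MvPolynomial (Low n) ℂ →+* PowerSeries ℂ,
      (∀ f, PowerSeries.constantCoeff (φ f) = aeval z0 f) ∧
      (∀ f ∈ VI (SS x (v' * Equiv.swap a b)), φ f = 0) ∧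
      ∀ (k : ℕ) (hk : k ≤ n), a.val < k → k ≤ b.val →
        PowerSeries.coeff 1 (φ (pmnr x (v' * Equiv.swap a b) k hk)) ≠ 0 := by
  obtain ⟨b1, b2, h1, h2, hM⟩ := hz
  obtain ⟨Gv, hGv⟩ : ∃ Gv : Matrix (Fin n) (Fin n) (Polynomial ℂ), Gv =
      b1.map Polynomial.C * permMat (Polynomial ℂ) v' *
      Matrix.transvection b a Polynomial.X * b2.map Polynomial.C := ⟨_, rfl⟩
  have hev : ∀ c : ℂ, Gv.map (Polynomial.evalRingHom c) =
      b1 * permMat ℂ v' * Matrix.transvection b a c * b2 := by
    intro c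
    rw [hGv]
    exact a7_eval v' a b b1 b2 c
  have hGev : ∀ c : ℂ, (permMat (Polynomial ℂ) x⁻¹ * Gv).map (Polynomial.evalRingHom c) =
      permMat ℂ x⁻¹ * (b1 * permMat ℂ v' * Matrix.transvection b a c * b2) := by
    intro c
    rw [Matrix.map_mul, permMat_map, hev]
  obtain ⟨hne, φ, hφ0, hφV, -, U, hU1, hU2, hU⟩ := generic_curve
    (permMat (Polynomial ℂ) x⁻¹ * Gv) z0
    (by
      rw [hGev, Matrix.transvection_zero, Matrix.mul_one, ← hM, ← Matrix.mul_assoc,
        permMat_inv_mul, Matrix.one_mul])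
    (SS x (v' * Equiv.swap a b))
    (by
      intro c hc z T hT h
      show permMat ℂ x * lowMat z ∈ Cell _
      rw [← cell_mul_right_iff hT, Matrix.mul_assoc, ← h, hGev, ← Matrix.mul_assoc,
        permMat_mul_inv, Matrix.one_mul]
      exact mem_cell_curve hab hv h1 h2 hc)
  refine ⟨hne, φ, hφ0, hφV, fun k hk hak hkb hzero => ?_⟩
  obtain ⟨d, hd, hcurve⟩ := mnr_curve hab hv h1 h2 hk hak hkb
  rw [← hGv] at hcurve
  have e1 : φ (pmnr x (v' * Equiv.swap a b) k hk) =
      mnr (v' * Equiv.swap a b) k hk (permMat (PowerSeries ℂ) x *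
        lowMat (fun e : Low n => φ (X e))) := by
    unfold pmnr
    rw [mnr_map, Matrix.map_mul, permMat_map, lowMat_map]
  have e2 : Gv.map Polynomial.coeToPowerSeries.ringHom = permMat (PowerSeries ℂ) x *
      lowMat (fun e : Low n => φ (X e)) * U := by
    have e3 : Gv = permMat (Polynomial ℂ) x * (permMat (Polynomial ℂ) x⁻¹ * Gv) := by
      rw [← Matrix.mul_assoc, permMat_mul_inv, Matrix.one_mul]
    rw [e3, Matrix.map_mul, permMat_map, hU, Matrix.mul_assoc]
  have e4 := mnr_map (Polynomial.coeToPowerSeries.ringHom (R := ℂ)) (v' * Equiv.swap a b) k hk Gv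
  rw [e2, mnr_mul_upperR hU1, ← e1, hcurve, map_mul] at e4
  have hu : IsUnit (∏ j : Fin k, U (Fin.castLE hk j) (Fin.castLE hk j)) := by
    rw [IsUnit.prod_univ_iff]
    exact fun j => hU2 _
  generalize (∏ j : Fin k, U (Fin.castLE hk j) (Fin.castLE hk j)) = u at e4 hu
  generalize φ (pmnr x (v' * Equiv.swap a b) k hk) = Δ at e4 hzero
  have hu0 : PowerSeries.constantCoeff u ≠ 0 := by
    have := hu.map (PowerSeries.constantCoeff (R := ℂ))
    exact this.ne_zero
  have e5 : (PowerSeries.X : PowerSeries ℂ) * PowerSeries.C d = Δ * u := by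
    have h3 : Polynomial.coeToPowerSeries.ringHom (Polynomial.X : Polynomial ℂ) =
        (PowerSeries.X : PowerSeries ℂ) := by
      simp
    have h4 : Polynomial.coeToPowerSeries.ringHom (Polynomial.C d : Polynomial ℂ) =
        (PowerSeries.C d : PowerSeries ℂ) := by
      simp
    rw [← h3, ← h4]
    exact e4
  have e6 : PowerSeries.constantCoeff Δ = 0 := by
    have h3 := congrArg (PowerSeries.constantCoeff (R := ℂ)) e5
    rw [map_mul, map_mul] at h3
    simp only [PowerSeries.constantCoeff_X, zero_mul] at h3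
    rcases mul_eq_zero.1 h3.symm with h4 | h4
    · exact h4
    · exact absurd h4 hu0
  have e7 := congrArg (PowerSeries.coeff (R := ℂ) 1) e5
  rw [PowerSeries.coeff_mul] at e7
  simp [PowerSeries.coeff_mul, Finset.Nat.antidiagonal_succ, hzero, e6,
    PowerSeries.coeff_X, PowerSeries.coeff_C] at e7
  exact hd e7

end CMT
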