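import Pool.Agent.H43.CM.A.A0

/-!
# CM, job A7a: LU decomposition over a commutative ring

`exists_LU`: `M` a matrix over a commutative ring `R` all of whose leading principal minors `mnr 1 k hk M` (`k ≤ n`) are
units. Then `M = lowMat z * T` with `T` upper triangular with unit diagonal entries.
Proof by induction on `n` (generalising `M`). Step `n + 1`: `m = M 0 0 = mnr 1 1 M` is a unit. Let
`N i j = M i.succ j.succ - M i.succ 0 * m⁻¹ * M 0 j.succ` (Schur complement, `n x n`). The leading minors satisfy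
`mnr 1 (k+1) M = m * mnr 1 k N` (subtract multiples of row 0 from the other rows, expand along the first column; e.g.
`Matrix.det_fromBlocks₁₁` after reindexing `Fin (k+1) ≃ Unit ⊕ Fin k`, or `Matrix.det_succ_column_zero` after
`Matrix.det_eq_of_forall_row_eq_smul_add_const`), so they are units. By induction `N = lowMat z' * T'`. Let
`z ⟨(i, j)⟩ = M i 0 * m⁻¹` if `j = 0` and `z' (i - 1, j - 1)` otherwise, `T 0 j = M 0 j`, `T i.succ j.succ = T' i j`, `T i.succ 0 = 0`.
Another way without blocks: `z_{pj} = (minor with rows 0..j-1,p and columns 0..j) / D_{j+1}`; the inductive way is easier.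
`LU_unique`: if `lowMat z0 = lowMat z1 * T` with `T i j = 0` for `j < i`, then `z0 = z1`, `T = 1`. Proof: strong induction on `i`:
row `i` of `T` is row `i` of `1`: for `j ≥ i`: `δ_ij = lowMat z0 i j = ∑_{k ≤ i} lowMat z1 i k * T k j = T i j +
∑_{k < i} lowMat z1 i k * δ_kj = T i j`. So `T = 1` and `lowMat_injective`.
-/

open Finset

noncomputable section

namespace CMT

/-- Schur complement of the `(0,0)` entry (`c` stands for the inverse of `M 0 0`) -/
def A7a_N {R : Type*} [CommRing R] {n : ℕ} (M : Matrix (Fin (n + 1)) (Fin (n + 1)) R) (c : R) :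
    Matrix (Fin n) (Fin n) R :=
  fun i j => M i.succ j.succ - M i.succ 0 * c * M 0 j.succ

theorem A7a_mnr {R : Type*} [CommRing R] {n : ℕ} (M : Matrix (Fin (n + 1)) (Fin (n + 1)) R) (c : R)
    (hc : c * M 0 0 = 1) (k : ℕ) (hk : k ≤ n) :
    mnr 1 (k + 1) (Nat.succ_le_succ hk) M = M 0 0 * mnr 1 k hk (A7a_N M c) := by
  have hk' : k + 1 ≤ n + 1 := Nat.succ_le_succ hk
  have h0 : Fin.castLE hk' 0 = 0 := rfl
  have hs : ∀ i : Fin k, Fin.castLE hk' i.succ = (Fin.castLE hk i).succ := fun i => rfl
  unfold mnr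
  rw [Matrix.det_eq_of_forall_row_eq_smul_add_const
    (B := Matrix.of fun i j : Fin (k + 1) => M (Fin.castLE hk' i) (Fin.castLE hk' j)
      - (if i = 0 then 0 else M (Fin.castLE hk' i) 0 * c) * M 0 (Fin.castLE hk' j))
    (fun i : Fin (k + 1) => if i = 0 then 0 else M (Fin.castLE hk' i) 0 * c) 0 (by simp)
    (by
      intro i j
      simp [h0])]
  rw [Matrix.det_succ_column_zero, Finset.sum_eq_single 0]
  · have h1 : (Matrix.submatrix (Matrix.of fun i j : Fin (k + 1) => M (Fin.castLE hk' i)
        (Fin.castLE hk' j) - (if i = 0 then 0 else M (Fin.castLE hk' i) 0 * c) *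
          M 0 (Fin.castLE hk' j)) (Fin.succAbove 0) Fin.succ)
        = Matrix.of fun i j : Fin k => A7a_N M c ((1 : Equiv.Perm (Fin n)) (Fin.castLE hk i))
            (Fin.castLE hk j) := by
      ext i j
      simp [A7a_N, hs, Fin.succ_ne_zero]
    rw [h1]
    simp [h0]
  · intro i _ hi
    have h2 : (Matrix.of fun i j : Fin (k + 1) => M (Fin.castLE hk' i) (Fin.castLE hk' j)
      - (if i = 0 then 0 else M (Fin.castLE hk' i) 0 * c) * M 0 (Fin.castLE hk' j)) i 0 = 0 := by
      simp only [Matrix.of_apply, if_neg hi, h0]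
      linear_combination (-M (Fin.castLE hk' i) 0) * hc
    rw [h2]
    ring
  · simp

theorem exists_LU {R : Type*} [CommRing R] (n : ℕ) (M : Matrix (Fin n) (Fin n) R)
    (hM : ∀ k (hk : k ≤ n), IsUnit (mnr 1 k hk M)) :
    ∃ (z : Low n → R) (T : Matrix (Fin n) (Fin n) R),
      M = lowMat z * T ∧ (∀ i j, j < i → T i j = 0) ∧ ∀ i, IsUnit (T i i) := by
  induction n with
  | zero =>
    refine ⟨fun _ => 0, M, ?_, fun i => i.elim0, fun i => i.elim0⟩
    ext i
    exact i.elim0
  | succ n ih =>
    have h1 : IsUnit (M 0 0) := by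
      have h := hM 1 (by omega)
      unfold mnr at h
      rw [Matrix.det_unique] at h
      simpa using h
    obtain ⟨u, hu⟩ := h1
    obtain ⟨c, hcdef⟩ : ∃ c : R, c = ((u⁻¹ : Rˣ) : R) := ⟨_, rfl⟩
    have hc : c * M 0 0 = 1 := by
      rw [hcdef, ← hu]
      exact u.inv_mul
    obtain ⟨z', T', hN, hT, hU⟩ := ih (A7a_N M c) (by
      intro k hk
      have h := hM (k + 1) (Nat.succ_le_succ hk)
      rw [A7a_mnr M c hc k hk] at h
      exact isUnit_of_mul_isUnit_right h)
    obtain ⟨L, hL⟩ : ∃ L : Matrix (Fin (n + 1)) (Fin (n + 1)) R, L = fun i j =>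
        Fin.cases (Fin.cases 1 (fun _ => 0) j)
          (fun i' => Fin.cases (M i'.succ 0 * c) (fun j' => lowMat z' i' j') j) i := ⟨_, rfl⟩
    obtain ⟨T, hTd⟩ : ∃ T : Matrix (Fin (n + 1)) (Fin (n + 1)) R, T = fun i j =>
        Fin.cases (M 0 j) (fun i' => Fin.cases 0 (fun j' => T' i' j') j) i := ⟨_, rfl⟩
    have L00 : L 0 0 = 1 := by rw [hL]; rfl
    have L0s : ∀ j : Fin n, L 0 j.succ = 0 := fun j => by rw [hL]; rfl
    have Ls0 : ∀ i : Fin n, L i.succ 0 = M i.succ 0 * c := fun i => by rw [hL]; rfl
    have Lss : ∀ i j : Fin n, L i.succ j.succ = lowMat z' i j := fun i j => by rw [hL]; rfl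
    have T0 : ∀ j, T 0 j = M 0 j := fun j => by rw [hTd]; rfl
    have Ts0 : ∀ i : Fin n, T i.succ 0 = 0 := fun i => by rw [hTd]; rfl
    have Tss : ∀ i j : Fin n, T i.succ j.succ = T' i j := fun i j => by rw [hTd]; rfl
    have hLl : L = lowMat (fun e : Low (n + 1) => L e.1.1 e.1.2) := by
      apply eq_lowMat
      · intro i j hij
        refine Fin.cases ?_ (fun i' => ?_) i (motive := fun i => i < j → L i j = 0) hij
        · intro h
          obtain ⟨j', rfl⟩ := Fin.exists_succ_eq.mpr (Fin.pos_iff_ne_zero.mp h)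
          exact L0s j'
        · intro h
          obtain ⟨j', rfl⟩ := Fin.exists_succ_eq.mpr (Fin.pos_iff_ne_zero.mp
            (lt_of_le_of_lt (Fin.zero_le _) h))
          rw [Lss]
          exact lowMat_gt _ (Fin.succ_lt_succ_iff.mp h)
      · intro i
        refine Fin.cases L00 (fun i' => ?_) i
        rw [Lss, lowMat_diag]
    refine ⟨fun e => L e.1.1 e.1.2, T, ?_, ?_, ?_⟩
    · rw [← hLl]
      ext i j
      rw [Matrix.mul_apply, Fin.sum_univ_succ]
      refine Fin.cases ?_ (fun i' => ?_) i
      · simp [L00, L0s, T0]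
      · refine Fin.cases ?_ (fun j' => ?_) j
        · simp only [Ls0, T0, Ts0, mul_zero, Finset.sum_const_zero, add_zero]
          linear_combination (-M i'.succ 0) * hc
        · simp only [Ls0, T0, Lss, Tss]
          have h3 := congrFun (congrFun hN i') j'
          rw [Matrix.mul_apply] at h3
          rw [← h3, A7a_N]
          ring
    · intro i j hij
      refine Fin.cases ?_ (fun i' => ?_) i (motive := fun i => j < i → T i j = 0) hij
      · intro h
        exact absurd h (Fin.not_lt_zero _)
      · refine Fin.cases ?_ (fun j' => ?_) j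
        · intro _
          exact Ts0 i'
        · intro h
          rw [Tss]
          exact hT _ _ (Fin.succ_lt_succ_iff.mp h)
    · intro i
      refine Fin.cases ?_ (fun i' => ?_) i
      · rw [T0, ← hu]
        exact u.isUnit
      · rw [Tss]
        exact hU i'

theorem LU_unique {R : Type*} [CommRing R] {n : ℕ} {z0 z1 : Low n → R}
    {T : Matrix (Fin n) (Fin n) R} (hT : ∀ i j, j < i → T i j = 0)
    (h : lowMat z0 = lowMat z1 * T) : z0 = z1 ∧ T = 1 := by
  have key : ∀ i j, T i j = (1 : Matrix (Fin n) (Fin n) R) i j := by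
    intro i
    induction i using WellFoundedLT.induction with
    | ind i ih =>
      intro j
      rcases lt_or_ge j i with hj | hj
      · rw [hT i j hj, Matrix.one_apply_ne hj.ne']
      · have h1 := congrFun (congrFun h i) j
        rw [Matrix.mul_apply, Finset.sum_eq_single i] at h1
        · rw [lowMat_diag, one_mul] at h1
          rw [← h1]
          rcases hj.eq_or_lt with rfl | hj
          · rw [lowMat_diag, Matrix.one_apply_eq]
          · rw [lowMat_gt _ hj, Matrix.one_apply_ne hj.ne]
        · intro k _ hk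
          rcases lt_or_gt_of_ne hk with hk | hk
          · rw [ih k hk j, Matrix.one_apply_ne (lt_of_lt_of_le hk hj).ne, mul_zero]
          · rw [lowMat_gt _ hk, zero_mul]
        · simp
  have hT1 : T = 1 := by
    ext i j
    exact key i j
  refine ⟨?_, hT1⟩
  rw [hT1, mul_one] at h
  exact lowMat_injective h

end CMT
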