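import Pool.Agent.H43.CM.A.A1
import Pool.Agent.H43.CM.A.A2
import Pool.Agent.H43.CM.B.B3

/-!
# CM, job A7b: the curve through a point of the smaller cell

`v' a < v' b`, `a < b`, `v = v' * swap a b`, `b1`, `b2` upper, `M(c) = b1 * permMat v' * transvection b a c * b2`.
`mem_cell_curve`: for `c ≠ 0` `M(c) ∈ Cell v`: `transvection b a c = U * D * permMat (swap a b) * U` with
`U = transvection a b (1/c)` (upper), `D = diagonal (-1/c at a, c at b, 1 elsewhere)`
[2x2: `(1,0;c,1) = (1,1/c;0,1) (-1/c,0;0,c) (0,1;1,0) (1,1/c;0,1)`], and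
`permMat v' * U = transvection (v' a) (v' b) (1/c) * permMat v'` is upper times `permMat v'` (`permMat_transv`),
`permMat v' * D = D' * permMat v'` (`permMat_diag`), `permMat v' * permMat (swap a b) = permMat v`.
`mnr_mul_upperR`: over any commutative ring, for `c` with `c i j = 0` for `j < i`:
`mnr w k (M * c) = mnr w k M * ∏_{j<k} c j j`: the `k x k` matrix `(∑_l M (w i) l * c l j)` has only terms `l ≤ j < k`, so it is the
product of two `k x k` matrices, the second one triangular (`Matrix.det_of_upperTriangular`).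
`mnr_curve`: over the polynomial ring `ℂ[X]`, for `a < k ≤ b`:
`mnr v k (b1 * permMat v' * transvection b a X * b2) = X * C d` with `d ≠ 0`. By `mnr_mul_upperR` it is
`mnr v k N * ∏ C (b2 j j)`, `N = b1 * permMat v' * transvection b a X`; column `j ≠ a` of `N` is column `j` of
`P := b1 * permMat v'` (i.e. column `v' j` of `b1`), column `a` of `N` is `P_a + X * P_b` (`Matrix.mul_transvection_apply_same`).
Linearity in column `a` (`a < k`; `Matrix.det_updateCol_add`, `det_updateCol_smul`):
`mnr v k N = C (mnr v k P) + X * C (det (P (v i) (σ j))_{i,j<k})`, where `σ a = b`, `σ j = j` otherwise, i.e.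
`P (v i) (σ j) = b1 (v i) (v' (σ j)) = b1 (v i) (v j)` for `j < k ≤ b`. The first determinant is 0 by `mnr_eq_zero`
(`P ∈ Cell v'`, `rk v' i k < rk v i k` for `i = v a` by `rk_swap_lt` as `v' = v * swap a b`), the second is `≠ 0` by `det_conj_ne`.
-/

open Finset

noncomputable section

namespace CMT

variable {n : ℕ}

private theorem a7b_fact {a b : Fin n} (hab : a ≠ b) {c : ℂ} (hc : c ≠ 0) :
    Matrix.transvection b a c = Matrix.transvection a b (1 / c) *
      Matrix.diagonal (fun i => if i = a then -1 / c else if i = b then c else 1) *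
      permMat ℂ (Equiv.swap a b) * Matrix.transvection a b (1 / c) := by
  ext i j
  by_cases hjb : j = b
  · rw [hjb, Matrix.mul_transvection_apply_same, mul_permMat_apply, mul_permMat_apply,
      Matrix.mul_diagonal, Matrix.mul_diagonal, Equiv.swap_apply_right, Equiv.swap_apply_left,
      if_pos rfl, if_neg (Ne.symm hab), if_pos rfl]
    by_cases hia : i = a
    · subst hia
      simp [Matrix.transvection, Matrix.one_apply, Matrix.single_apply, hab, Ne.symm hab]
      field_simp
      ring
    · by_cases hib : i = b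
      · subst hib
        simp [Matrix.transvection, Matrix.one_apply, Matrix.single_apply, hab, Ne.symm hab]
        field_simp
      · simp [Matrix.transvection, Matrix.one_apply, Matrix.single_apply, hia, hib, Ne.symm hia,
          Ne.symm hib]
  · rw [Matrix.mul_transvection_apply_of_ne _ _ _ _ hjb, mul_permMat_apply, Matrix.mul_diagonal]
    by_cases hja : j = a
    · rw [hja, Equiv.swap_apply_left, if_neg (Ne.symm hab), if_pos rfl]
      by_cases hia : i = a
      · subst hia
        simp [Matrix.transvection, Matrix.one_apply, Matrix.single_apply, hab, Ne.symm hab, hc]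
      · by_cases hib : i = b
        · subst hib
          simp [Matrix.transvection, Matrix.one_apply, Matrix.single_apply, hab, Ne.symm hab]
        · simp [Matrix.transvection, Matrix.one_apply, Matrix.single_apply, hia, hib, Ne.symm hia,
            Ne.symm hib]
    · rw [Equiv.swap_apply_of_ne_of_ne hja hjb, if_neg hja, if_neg hjb, mul_one]
      simp [Matrix.transvection, Matrix.single_apply, Ne.symm hja, Ne.symm hjb]

theorem mem_cell_curve {v' : Equiv.Perm (Fin n)} {a b : Fin n} (hab : a < b) (hv : v' a < v' b)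
    {b1 b2 : Matrix (Fin n) (Fin n) ℂ} (h1 : IsUpper b1) (h2 : IsUpper b2) {c : ℂ} (hc : c ≠ 0) :
    b1 * permMat ℂ v' * Matrix.transvection b a c * b2 ∈ Cell (v' * Equiv.swap a b) := by
  set d : Fin n → ℂ := fun i => if i = a then -1 / c else if i = b then c else 1 with hd
  have hd0 : ∀ i, d i ≠ 0 := by
    intro i
    rw [hd]
    dsimp only
    split_ifs
    · exact div_ne_zero (by norm_num) hc
    · exact hc
    · exact one_ne_zero
  refine ⟨b1 * Matrix.transvection (v' a) (v' b) (1 / c) *
    Matrix.diagonal (fun i => d (v'⁻¹ i)), Matrix.transvection a b (1 / c) * b2,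
    (h1.mul (isUpper_transv hv _)).mul (isUpper_diag fun i => hd0 _),
    (isUpper_transv hab _).mul h2, ?_⟩
  rw [a7b_fact hab.ne hc, permMat_mul]
  have e1 := permMat_transv (R := ℂ) v' a b (1 / c)
  have e2 := permMat_diag (R := ℂ) v' d
  calc b1 * permMat ℂ v' * (Matrix.transvection a b (1 / c) * Matrix.diagonal d *
        permMat ℂ (Equiv.swap a b) * Matrix.transvection a b (1 / c)) * b2
      = b1 * (permMat ℂ v' * Matrix.transvection a b (1 / c)) * Matrix.diagonal d *
        permMat ℂ (Equiv.swap a b) * Matrix.transvection a b (1 / c) * b2 := by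
        simp only [Matrix.mul_assoc]
    _ = b1 * Matrix.transvection (v' a) (v' b) (1 / c) * (permMat ℂ v' * Matrix.diagonal d) *
        permMat ℂ (Equiv.swap a b) * Matrix.transvection a b (1 / c) * b2 := by
        rw [e1]
        simp only [Matrix.mul_assoc]
    _ = _ := by
        rw [e2]
        simp only [Matrix.mul_assoc]

private theorem a7b_sum {R : Type*} [AddCommMonoid R] {k : ℕ} (hk : k ≤ n) (f : Fin n → R)
    (h : ∀ l : Fin n, k ≤ l.val → f l = 0) : ∑ l, f l = ∑ l : Fin k, f (Fin.castLE hk l) := by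
  symm
  refine Fintype.sum_of_injective (Fin.castLE hk) (Fin.castLE_injective hk) _ _ (fun l hl => ?_)
    (fun _ => rfl)
  apply h
  by_contra hlt
  exact hl ⟨⟨l.val, by omega⟩, by ext; rfl⟩

theorem mnr_mul_upperR {R : Type*} [CommRing R] {c : Matrix (Fin n) (Fin n) R}
    (hc : ∀ i j, j < i → c i j = 0) (w : Equiv.Perm (Fin n)) {k : ℕ} (hk : k ≤ n)
    (M : Matrix (Fin n) (Fin n) R) :
    mnr w k hk (M * c) = mnr w k hk M * ∏ j : Fin k, c (Fin.castLE hk j) (Fin.castLE hk j) := by
  have e : (Matrix.of fun i j : Fin k => (M * c) (w (Fin.castLE hk i)) (Fin.castLE hk j)) =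
      (Matrix.of fun i j : Fin k => M (w (Fin.castLE hk i)) (Fin.castLE hk j)) *
        (Matrix.of fun i j : Fin k => c (Fin.castLE hk i) (Fin.castLE hk j)) := by
    ext i j
    rw [Matrix.of_apply, Matrix.mul_apply, Matrix.mul_apply, a7b_sum hk]
    · rfl
    · intro l hl
      rw [hc l (Fin.castLE hk j) (by
        rw [Fin.lt_def]
        exact lt_of_lt_of_le j.2 hl), mul_zero]
  unfold mnr
  rw [e, Matrix.det_mul]
  congr 1
  rw [Matrix.det_of_isUpperTriangular]
  · rfl
  · intro i j hij
    exact hc _ _ hij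

theorem mnr_curve {v' : Equiv.Perm (Fin n)} {a b : Fin n} (hab : a < b) (hv : v' a < v' b)
    {b1 b2 : Matrix (Fin n) (Fin n) ℂ} (h1 : IsUpper b1) (h2 : IsUpper b2) {k : ℕ} (hk : k ≤ n)
    (hak : a.val < k) (hkb : k ≤ b.val) :
    ∃ d : ℂ, d ≠ 0 ∧ mnr (v' * Equiv.swap a b) k hk (b1.map Polynomial.C *
      permMat (Polynomial ℂ) v' * Matrix.transvection b a Polynomial.X * b2.map Polynomial.C)
      = Polynomial.X * Polynomial.C d := by
  set v := v' * Equiv.swap a b with hvdef
  have hva : v a = v' b := by rw [hvdef, Equiv.Perm.mul_apply, Equiv.swap_apply_left]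
  have hvb : v b = v' a := by rw [hvdef, Equiv.Perm.mul_apply, Equiv.swap_apply_right]
  have hback : v * Equiv.swap a b = v' := by
    rw [hvdef, mul_assoc, Equiv.swap_mul_self, mul_one]
  set Q : Matrix (Fin n) (Fin n) ℂ := b1 * permMat ℂ v' with hQ
  have hP : b1.map Polynomial.C * permMat (Polynomial ℂ) v' = Q.map Polynomial.C := by
    rw [hQ, Matrix.map_mul, permMat_map]
  have hQa : ∀ i j, Q i j = b1 i (v' j) := fun i j => mul_permMat_apply v' b1 i j
  set M1 : Matrix (Fin k) (Fin k) ℂ :=
    Matrix.of fun i j : Fin k => Q (v (Fin.castLE hk i)) (Fin.castLE hk j) with hM1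
  set D2 : Matrix (Fin k) (Fin k) ℂ :=
    Matrix.of fun i j : Fin k => b1 (v (Fin.castLE hk i)) (v (Fin.castLE hk j)) with hD2
  have hD2ne : D2.det ≠ 0 := det_conj_ne h1 v hk
  have hM1z : M1.det = 0 := by
    have hcell : Q ∈ Cell v' := ⟨b1, 1, h1, isUpper_one, by rw [Matrix.mul_one]⟩
    have hlt := rk_swap_lt (u := v) hab (by rw [hva, hvb]; exact hv) k hak hkb
    rw [hback] at hlt
    exact mnr_eq_zero hcell k hk _ hlt
  obtain ⟨a', ha'⟩ : ∃ a' : Fin k, Fin.castLE hk a' = a := ⟨⟨a.val, hak⟩, rfl⟩
  have hne : ∀ j : Fin k, j ≠ a' → Fin.castLE hk j ≠ a := by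
    intro j hj h
    exact hj (Fin.castLE_injective hk (h.trans ha'.symm))
  have key : (Matrix.of fun i j : Fin k => ((Q.map Polynomial.C *
      Matrix.transvection b a (Polynomial.X : Polynomial ℂ) :
      Matrix (Fin n) (Fin n) (Polynomial ℂ)) (v (Fin.castLE hk i)) (Fin.castLE hk j))) =
      Matrix.updateCol (M1.map Polynomial.C) a' ((fun i => (M1.map Polynomial.C) i a') +
        (Polynomial.X : Polynomial ℂ) • (fun i => Polynomial.C (Q (v (Fin.castLE hk i)) b))) := by
    ext1 i j
    by_cases hj : j = a'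
    · rw [hj, Matrix.updateCol_self, Matrix.of_apply, ha', Matrix.mul_transvection_apply_same]
      simp only [Pi.add_apply, Pi.smul_apply, smul_eq_mul, Matrix.map_apply, hM1, Matrix.of_apply,
        ha']
    · rw [Matrix.updateCol_ne hj, Matrix.of_apply,
        Matrix.mul_transvection_apply_of_ne _ _ _ _ (hne j hj)]
      simp only [Matrix.map_apply, hM1, Matrix.of_apply]
  have key2 : Matrix.updateCol (M1.map Polynomial.C) a'
      (fun i => Polynomial.C (Q (v (Fin.castLE hk i)) b)) = D2.map Polynomial.C := by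
    ext1 i j
    by_cases hj : j = a'
    · rw [hj, Matrix.updateCol_self, Matrix.map_apply, hD2, Matrix.of_apply, ha', hva, hQa]
    · have hjb : Fin.castLE hk j ≠ b := by
        intro h
        have h3 : j.val = b.val := congrArg Fin.val h
        have := j.2
        omega
      rw [Matrix.updateCol_ne hj, Matrix.map_apply, Matrix.map_apply, hM1, hD2, Matrix.of_apply,
        Matrix.of_apply, hQa, hvdef, Equiv.Perm.mul_apply v' (Equiv.swap a b) (Fin.castLE hk j),
        Equiv.swap_apply_of_ne_of_ne (hne j hj) hjb]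
  have hdetC : ∀ M : Matrix (Fin k) (Fin k) ℂ,
      (M.map Polynomial.C).det = Polynomial.C M.det := fun M =>
    (RingHom.map_det (Polynomial.C : ℂ →+* Polynomial ℂ) M).symm
  refine ⟨D2.det * ∏ j : Fin k, b2 (Fin.castLE hk j) (Fin.castLE hk j),
    mul_ne_zero hD2ne (Finset.prod_ne_zero_iff.mpr fun j _ => h2.2 _), ?_⟩
  rw [hP, mnr_mul_upperR (fun i j hij => by rw [Matrix.map_apply, h2.1 i j hij, map_zero])]
  unfold mnr
  rw [key, Matrix.det_updateCol_add, Matrix.updateCol_eq_self, Matrix.det_updateCol_smul, key2,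
    hdetC, hdetC, hM1z, map_zero, zero_add, map_mul, map_prod, mul_assoc]
  rfl

end CMT
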