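import Pool.Agent.H43.CM.A.A7
import Pool.Agent.H43.CM.B.B5

/-!
# CM, A8, A9: containments of the ideals, nonemptiness of the cells in the charts.
-/

open Finset MvPolynomial

noncomputable section

namespace CMT

variable {n : ℕ}

theorem hasse_swap_lt {v : Equiv.Perm (Fin n)} {a b : Fin n} (h : Hasse v a b) :
    (v * Equiv.swap a b) a < (v * Equiv.swap a b) b := by
  rw [Equiv.Perm.mul_apply, Equiv.Perm.mul_apply, Equiv.swap_apply_left, Equiv.swap_apply_right]
  exact h.2.1

theorem mul_swap_swap (v : Equiv.Perm (Fin n)) (a b : Fin n) :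
    v * Equiv.swap a b * Equiv.swap a b = v := by
  rw [mul_assoc, Equiv.swap_mul_self, mul_one]

theorem VI_step {x v : Equiv.Perm (Fin n)} {a b : Fin n} (h : Hasse v a b) :
    VI (SS x v) ≤ VI (SS x (v * Equiv.swap a b)) := by
  intro f hf
  rw [mem_vanishingIdeal_iff]
  intro z hz
  obtain ⟨_, φ, h1, h2, _⟩ := curve h.1 (hasse_swap_lt h) hz
  rw [mul_swap_swap] at h2
  rw [← h1 f, h2 f hf, map_zero]

/-- (A8) -/
theorem VI_le_of_ble {x v w : Equiv.Perm (Fin n)} (h : ble w v) :
    VI (SS x v) ≤ VI (SS x w) := by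
  induction hl : len v using Nat.strong_induction_on generalizing v with
  | _ m ih =>
    by_cases hne : w = v
    · rw [hne]
    · obtain ⟨a, b, h1, h2⟩ := exists_hasse h hne
      have h3 := (cov_of_hasse h1).2
      exact (VI_step h1).trans (ih (len (v * Equiv.swap a b)) (by omega) h2 rfl)

/-- (A9) -/
theorem SS_nonempty_of_ble {x v : Equiv.Perm (Fin n)} (h : ble x v) : (SS x v).Nonempty := by
  induction hl : len v using Nat.strong_induction_on generalizing v with
  | _ m ih =>
    by_cases hne : x = v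
    · rw [← hne]
      exact ⟨0, zero_mem_SS x⟩
    · obtain ⟨a, b, h1, h2⟩ := exists_hasse h hne
      have h3 := (cov_of_hasse h1).2
      obtain ⟨z, hz⟩ := ih (len (v * Equiv.swap a b)) (by omega) h2 rfl
      have h4 := (curve h1.1 (hasse_swap_lt h1) hz).1
      rwa [mul_swap_swap] at h4

end CMT
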