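import Pool.Agent.H43.CM.Ch.C2
import Pool.Agent.H43.CM.Ch.C3
import Pool.Agent.H43.CM.Ch.C3b
import Pool.Agent.H43.CM.B.B8

/-!
# CM, job A9: every point of every chart lies in a cell (A3)

Proof by `down_induction` on `x`. `x = w0`: `SS_rev`. Step: `x` has an ascent at `q`, the claim holds for `x * s`. Let
`z` be a point of the chart `x`; `z = gam y` (surjectivity in `exists_gamE`), `g = permMat x * lowMat (ext0 y')`,
`permMat x * lowMat z = g * X(t)` (`lowMat_gam`). Let `y0` be the point `y` with `t` replaced by 0: the point `gam' y0` of the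
chart `x * s` lies in some cell: `g * S * X(0) ∈ Cell w` (`chart_s`). So `g * S ∈ Cell2 q hq w`, so `g ∈ Cell2 q hq w`
(`cell2_mul_sr_iff`) and `g * X(t) ∈ Cell2 q hq w` (`cell2_mul_xq`), which is the claim.
-/

open MvPolynomial

noncomputable section

namespace CMT

variable {n : ℕ}

/-- (A3) Bruhat decomposition -/
theorem exists_cell (x : Equiv.Perm (Fin n)) (z : Low n → ℂ) : ∃ w, z ∈ SS x w := by
  revert z
  refine down_induction (P := fun x => ∀ z, ∃ w, z ∈ SS x w) ?_ ?_ x
  · intro z
    exact ⟨Fin.revPerm, by rw [SS_rev]; trivial⟩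
  · intro x q hq _ ih z
    obtain ⟨c, hc, _⟩ := exists_gamE (n := n) q hq
    obtain ⟨y, hy⟩ := c.g_surj z
    rw [hc] at hy
    obtain ⟨w, hw⟩ := ih (gam' (fun o => o.elim 0 (fun i => y (some i))))
    have h1 : permMat ℂ (x * sr q hq) * lowMat
        (gam' (fun o : Option (Kap n q hq) => o.elim 0 (fun i => y (some i)))) ∈ Cell w := hw
    rw [chart_s] at h1
    have h2 : permMat ℂ x * lowMat (ext0 fun i => y (some i)) * permMat ℂ (sr q hq) *
        xq q hq (0 : ℂ) ∈ Cell2 q hq w := Or.inl h1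
    rw [cell2_mul_xq_iff, cell2_mul_sr_iff] at h2
    have h3 := cell2_mul_xq h2 (y none)
    rw [Matrix.mul_assoc, ← lowMat_gam, hy] at h3
    rcases h3 with h | h
    · exact ⟨_, h⟩
    · exact ⟨_, h⟩

end CMT
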