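import Pool.Agent.H43.CM.A.A3
import Pool.Agent.H43.CM.A.A8
import Pool.Agent.H43.CM.A.A9
import Pool.Agent.H43.CM.A.A10
import Pool.Agent.H43.CM.B.B6
import Pool.Agent.H43.CM.B.B7
import Pool.Agent.H43.CM.B.B8

/-!
# MP_7fe4b4_ag : interface of PART A and PART B (cells and Bruhat order): list of imports.

PART B: `ble_refl`, `ble_trans`, `ble_antisymm` (B0), `ble_one`, `ble_rev`, `exists_asc`, `sr_ble` (B8),
`len_mul_asc`, `len_mul_dsc` (B1), `asc_or_dsc`, `asc_mul_iff`, `dsc_mul_iff`, `mul_sr_sr` (B0), `lift_a` .. `lift_d` (B2),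
`len_le_of_ble`, `eq_of_ble_of_len`, `cov_asc`, `cov_mul_sr`, `exists_cov`, `cov_iff`, `rk_swap_of_mem`,
`rk_swap_of_not_mem` (B5), `thin` (B6), `RankFun`, `b8_i`, `b8_ii` (B7).
PART A: `mnr_ne_zero` (A1), `mnr_eq_zero` (A2), `aeval_pmnr`, `cell_disjoint`, `ble_of_closure`, `SS_rev`, `SS_rev_empty`,
`SS_one_one`, `zero_mem_SS` (A3), `exists_cell` (A9), `curve` (A7), `VI_le_of_ble`, `SS_nonempty_of_ble` (A8), `torus_SS`,
`VI_SS_homogeneous`, `VI_SS_le_orig` (A10).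
-/
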